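import Pool.Agent.Y177.Ga.Lin

/-!
The charts of projective space: the weighted centre given by a nilpotent endomorphism of the space
of linear forms, in affine coordinates.
-/

set_option autoImplicit false
set_option linter.unusedSectionVars false

open MvPolynomial Pool.Agent.H920R2 Pool.Agent.Y177.Tor

universe u

namespace Pool.Agent.U197.PQ

section exch

variable {k : Type u} [Field k] {m : ℕ} {p : ℕ} (N : Module.End k (Fin (m + 1) → k))

/-- A basis adapted to the flag of the images which contains a given vector of weight zero. -/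
lemma exists_exch (hN : N ^ p = 0) (b : Fin (m + 1) → k) (hb : b ∉ LinearMap.range N) :
    ∃ (c : Module.Basis (Fin (m + 1)) k (Fin (m + 1) → k)) (w : Fin (m + 1) → ℕ), c 0 = b ∧
      w 0 = 0 ∧ (∀ i, c i ∈ LinearMap.range (N ^ w i)) ∧
      ∀ d, 1 ≤ d → LinearMap.range (N ^ d) ≤ Submodule.span k (c '' {i | d ≤ w i}) := by
  classical
  obtain ⟨c, w, hc1, hc2⟩ := exists_linFlag N hN
  -- an index of weight zero where `b` has a nonzero coordinate
  obtain ⟨i0, hi0, hw0⟩ : ∃ i, c.repr b i ≠ 0 ∧ w i = 0 := by
    by_contra hcon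
    push Not at hcon
    apply hb
    rw [← c.sum_repr b]
    refine Submodule.sum_mem _ fun i _ => ?_
    by_cases h : c.repr b i = 0
    · rw [h, zero_smul]
      exact Submodule.zero_mem _
    · refine Submodule.smul_mem _ _ ?_
      obtain ⟨u, hu⟩ := hc1 i
      obtain ⟨w', hw'⟩ := Nat.exists_eq_succ_of_ne_zero (hcon i h)
      rw [hw', pow_succ'] at hu
      exact ⟨_, hu⟩
  let T : (Fin (m + 1) → k) →ₗ[k] (Fin (m + 1) → k) := c.constr k (Function.update c i0 b)
  have hTi : ∀ i, T (c i) = Function.update c i0 b i := fun i => c.constr_basis k _ i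
  have hTi0 : T (c i0) = b := by rw [hTi, Function.update_self]
  have hTne : ∀ i, i ≠ i0 → T (c i) = c i := fun i hi => by rw [hTi, Function.update_of_ne hi]
  have hsurj : Function.Surjective T := by
    rw [← LinearMap.range_eq_top, eq_top_iff, ← c.span_eq, Submodule.span_le]
    have hne : ∀ i, i ≠ i0 → c i ∈ LinearMap.range T := fun i hi => ⟨c i, hTne i hi⟩
    have hbT : b ∈ LinearMap.range T := ⟨c i0, hTi0⟩
    rintro _ ⟨i, rfl⟩
    by_cases hi : i = i0
    · subst hi
      have h1 : c.repr b i • c i = b - ∑ j ∈ Finset.univ.erase i, c.repr b j • c j := by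
        rw [eq_sub_iff_add_eq, Finset.add_sum_erase _ (fun j => c.repr b j • c j)
          (Finset.mem_univ i)]
        exact c.sum_repr b
      have h2 : c.repr b i • c i ∈ LinearMap.range T := by
        rw [h1]
        refine Submodule.sub_mem _ hbT (Submodule.sum_mem _ fun j hj => ?_)
        exact Submodule.smul_mem _ _ (hne j (Finset.ne_of_mem_erase hj))
      have h3 := Submodule.smul_mem _ (c.repr b i)⁻¹ h2
      rwa [smul_smul, inv_mul_cancel₀ hi0, one_smul] at h3
    · exact hne i hi
  have hinj : Function.Injective T := LinearMap.injective_iff_surjective.2 hsurj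
  let e := LinearEquiv.ofBijective T ⟨hinj, hsurj⟩
  let c' := (c.map e).reindex (Equiv.swap i0 0)
  have hc' : ∀ i, c' (Equiv.swap i0 0 i) = T (c i) := by
    intro i
    change ((c.map e).reindex (Equiv.swap i0 0)) _ = _
    rw [Module.Basis.reindex_apply, Equiv.symm_swap, Equiv.swap_apply_self, Module.Basis.map_apply]
    rfl
  let w' : Fin (m + 1) → ℕ := fun i => w (Equiv.swap i0 0 i)
  have hw' : ∀ i, w' (Equiv.swap i0 0 i) = w i := by
    intro i
    change w (Equiv.swap i0 0 (Equiv.swap i0 0 i)) = _
    rw [Equiv.swap_apply_self]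
  refine ⟨c', w', ?_, ?_, ?_, ?_⟩
  · have h := hc' i0
    rw [Equiv.swap_apply_left, hTi0] at h
    exact h
  · have h := hw' i0
    rw [Equiv.swap_apply_left, hw0] at h
    exact h
  · intro j
    obtain ⟨i, rfl⟩ := (Equiv.swap i0 0).surjective j
    rw [hc', hw']
    by_cases hi : i = i0
    · subst hi
      rw [hw0, pow_zero]
      exact ⟨_, rfl⟩
    · rw [hTne i hi]
      exact hc1 i
  · intro d hd
    refine (hc2 d).trans (Submodule.span_mono ?_)
    rintro _ ⟨i, hi, rfl⟩
    have hi' : i ≠ i0 := by
      rintro rfl
      have : d ≤ w i := hi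
      omega
    refine ⟨Equiv.swap i0 0 i, ?_, ?_⟩
    · change d ≤ w' (Equiv.swap i0 0 i)
      rw [hw']
      exact hi
    · rw [hc', hTne i hi']

/-- A basis which contains a given nonzero vector. -/
lemma exists_basis0 (b : Fin (m + 1) → k) (hb : b ≠ 0) :
    ∃ c : Module.Basis (Fin (m + 1)) k (Fin (m + 1) → k), c 0 = b := by
  obtain ⟨c, w, h, -⟩ := exists_exch (p := 1) (0 : Module.End k (Fin (m + 1) → k)) (pow_one 0) b
    (by rw [LinearMap.range_zero]; exact hb)
  exact ⟨c, h⟩

end exch

section ring

variable {k : Type u} [Field k] {m : ℕ} {p : ℕ} {N : Module.End k (Fin (m + 1) → k)}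
  {B : Type u} [CommRing B] [Algebra k B]

/-- The generators of the filtration of a chart. -/
def Gx (x : (Fin (m + 1) → k) →ₗ[k] B) (N : Module.End k (Fin (m + 1) → k)) (y : B) (w : ℕ) :
    Prop := ∃ v, y = x ((N ^ w) v)

/-- The filtration of a chart. -/
def Fx (x : (Fin (m + 1) → k) →ₗ[k] B) (N : Module.End k (Fin (m + 1) → k)) (d : ℕ) : Ideal B :=
  Gf (Gx x N) d

lemma isFilt_Fx (x : (Fin (m + 1) → k) →ₗ[k] B) : Pool.Agent.H519R3.RS.IsFilt (Fx x N) where
  zero := Gf_zero _
  anti := Gf_anti _
  mul := Gf_mul _

lemma x_mem_Fx (x : (Fin (m + 1) → k) →ₗ[k] B) (w : ℕ) (v : Fin (m + 1) → k) :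
    x ((N ^ w) v) ∈ Fx x N w := gen_mem _ ⟨v, rfl⟩

lemma etale_away {ι : Type} (y : ι → B)
    (h1 : ((aeval y : MvPolynomial ι k →ₐ[k] B) : MvPolynomial ι k →+* B).Etale) (f : B) :
    ((aeval (fun i => algebraMap B (Localization.Away f) (y i)) :
        MvPolynomial ι k →ₐ[k] Localization.Away f) :
        MvPolynomial ι k →+* Localization.Away f).Etale := by
  have h2 : Algebra.Etale B (Localization.Away f) := Algebra.Etale.of_isLocalizationAway f
  have h3 : (algebraMap B (Localization.Away f)).Etale := RingHom.etale_algebraMap.2 h2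
  have h4 := RingHom.Etale.stableUnderComposition _ _ h1 h3
  have h5 : (algebraMap B (Localization.Away f)).comp
      ((aeval y : MvPolynomial ι k →ₐ[k] B) : MvPolynomial ι k →+* B) =
      ((aeval (fun i => algebraMap B (Localization.Away f) (y i)) :
        MvPolynomial ι k →ₐ[k] Localization.Away f) :
        MvPolynomial ι k →+* Localization.Away f) := by
    have h6 : (IsScalarTower.toAlgHom k B (Localization.Away f)).comp
        (aeval y : MvPolynomial ι k →ₐ[k] B) =
        (aeval (fun i => algebraMap B (Localization.Away f) (y i)) :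
        MvPolynomial ι k →ₐ[k] Localization.Away f) := by
      apply MvPolynomial.algHom_ext
      intro i
      simp
    rw [← h6]
    rfl
  rw [← h5]
  exact h4

lemma smooth_of_etale {ι : Type} [Finite ι] (y : ι → B)
    (h1 : ((aeval y : MvPolynomial ι k →ₐ[k] B) : MvPolynomial ι k →+* B).Etale) :
    Algebra.Smooth k B := by
  let P := MvPolynomial ι k
  let _ : Algebra P B := (aeval y : P →ₐ[k] B).toRingHom.toAlgebra
  have hPB : ∀ q : P, algebraMap P B q = aeval y q := fun q => rfl
  have _ : IsScalarTower k P B := IsScalarTower.of_algebraMap_eq fun r => by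
    rw [hPB, MvPolynomial.algebraMap_eq, aeval_C]
  have _ : Algebra.Etale P B := h1
  have _ : Algebra.Smooth P B := inferInstance
  have _ : Algebra.Smooth k P :=
    { formallySmooth := inferInstanceAs (Algebra.FormallySmooth k (MvPolynomial _ k))
      finitePresentation := inferInstanceAs (Algebra.FinitePresentation k (MvPolynomial _ k)) }
  exact Algebra.Smooth.comp k P B

/-- The filtration of a chart is a regular weighted centre. -/
theorem centre_Fx (hN : N ^ p = 0) (x : (Fin (m + 1) → k) →ₗ[k] B) (b : Fin (m + 1) → k)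
    (hxb : x b = 1)
    (het : ∀ c : Module.Basis (Fin (m + 1)) k (Fin (m + 1) → k), c 0 = b →
      ((aeval (fun j : Fin m => x (c j.succ)) : MvPolynomial (Fin m) k →ₐ[k] B) :
        MvPolynomial (Fin m) k →+* B).Etale) : RegularWeightedCentre k (Fx x N) where
  zero := Gf_zero _
  anti := Gf_anti _
  mul := Gf_mul _
  coord P hP hFP := by
    classical
    by_cases hb : b ∈ LinearMap.range N
    · exfalso
      obtain ⟨u, hu⟩ := hb
      apply hP.ne_top
      rw [Ideal.eq_top_iff_one, ← hxb, ← hu]
      have h1 : N u = (N ^ 1) u := by rw [pow_one]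
      rw [h1]
      exact hFP (x_mem_Fx x 1 u)
    · obtain ⟨c, w, hc0, hw0, hc1, hc2⟩ := exists_exch N hN b hb
      let A := Localization.Away (1 : B)
      let y : Fin m → A := fun j => algebraMap B A (x (c j.succ))
      let wt : Fin m → ℕ := fun j => w j.succ
      refine ⟨1, m, fun j => x (c j.succ), wt, fun h => hP.ne_top (P.eq_top_iff_one.2 h),
        etale_away _ (het c hc0) 1, ?_⟩
      intro d
      apply le_antisymm
      · rw [Ideal.map_le_iff_le_comap]
        have key : ∀ d, Gf (Gx x N) d ≤ (mon y wt d).comap (algebraMap B A) := by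
          refine Gf_le _ ?_ ?_ ?_ ?_
          · rw [mon_zero, Ideal.comap_top]
          · intro a b hab
            exact Ideal.comap_mono (mon_anti y wt a b hab)
          · intro a b
            exact (Ideal.le_comap_mul _).trans (Ideal.comap_mono (mon_mul y wt a b))
          · rintro _ w0 ⟨v, rfl⟩
            change algebraMap B A (x ((N ^ w0) v)) ∈ mon y wt w0
            rcases Nat.eq_zero_or_pos w0 with rfl | hw
            · rw [mon_zero]
              trivial
            · have h1 := hc2 w0 hw ⟨v, rfl⟩
              obtain ⟨v', hv'⟩ : ∃ v', v' = (N ^ w0) v := ⟨_, rfl⟩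
              rw [← hv'] at h1 ⊢
              clear hv'
              induction h1 using Submodule.span_induction with
              | mem v hv =>
                obtain ⟨i, hi, rfl⟩ := hv
                have hi' : w0 ≤ w i := hi
                obtain ⟨j, rfl⟩ := Fin.exists_succ_eq.2 (show i ≠ 0 by
                  rintro rfl
                  omega)
                exact mon_anti y wt _ _ hi' (mon_single y wt j)
              | zero => rw [map_zero, map_zero]; exact Ideal.zero_mem _
              | add a b _ _ ha hb => rw [map_add, map_add]; exact Ideal.add_mem _ ha hb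
              | smul a b _ hb =>
                rw [map_smul, Algebra.smul_def, map_mul]
                exact Ideal.mul_mem_left _ _ hb
        exact key d
      · rw [Ideal.span_le]
        rintro _ ⟨α, h1, rfl⟩
        have h2 : ∏ i, algebraMap B A (x (c (Fin.succ i))) ^ α i =
            algebraMap B A (∏ i, x (c (Fin.succ i)) ^ α i) := by
          rw [map_prod]
          simp only [map_pow]
        change ∏ i, algebraMap B A (x (c (Fin.succ i))) ^ α i ∈ _
        rw [h2]
        refine Ideal.mem_map_of_mem _ (Gf_anti _ _ _ h1 (prod_pow_mem_Gf _ _ _ wt ?_ α))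
        intro i
        obtain ⟨v, hv⟩ := hc1 i.succ
        rw [← hv]
        exact gen_mem _ ⟨v, rfl⟩

end ring

end Pool.Agent.U197.PQ
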