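import Pool.Agent.H519R3.RS.Glob

/-!
Smooth projective models of the invariants of a tower over a proper variety which is given by
charts, with explicit charts of the quotient; the ambient field may be larger than the function
field.
-/

set_option autoImplicit false
set_option linter.unusedSectionVars false

open AlgebraicGeometry CategoryTheory Pool.Agent.H920R2 Pool.Agent.H519R3.RS

universe u v

namespace Pool.Agent.U197.PQ

/-- A proper variety over `k` inside the field `L` and a filtration of its structure sheaf. -/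
structure Chs {k L 𝒜 : Type} [Field k] [Field L] [Algebra k L] (B : 𝒜 → Subalgebra k L)
    (h : 𝒜 → 𝒜 → L) (F : ∀ a, ℕ → Ideal (B a)) : Prop where
  mem : ∀ a b, h a b ∈ B a
  glue : ∀ a b d, ∀ f ∈ F b d, ∃ (n : ℕ), ∃ g ∈ F a d, (g : L) = (h a b) ^ n * f
  proper : ∀ V : ValuationSubring L, (∀ c : k, algebraMap k L c ∈ V) → ∃ a, ∀ x ∈ B a, x ∈ V

/-- Smooth projective models of the members of a tower. -/
theorem model_of_chs' {p : ℕ} (hp : p.Prime) {k L 𝒜 : Type} [Field k] [Field L] [Algebra k L]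
    [Finite 𝒜] (hpk : (p : k) = 0) {B : 𝒜 → Subalgebra k L} {h : 𝒜 → L}
    {F : ∀ a, ℕ → Ideal (B a)} (hX : Chs B (fun a b => h b / h a) F) (hne0 : ∀ a, h a ≠ 0)
    (hF : ∀ a, IsFilt (F a)) (M : IntermediateField k L)
    (hM : ∀ a, h a ∈ M) (C : ∀ a, Subalgebra k (B a))
    (hgood : ∀ a, Good k (isFilt_restr (hF a) (C a)) ∧ restr (F a) (C a) 1 ≠ ⊥)
    (hCn : ∀ a (x : B a), x ∈ C a ↔ (x : L) ∈ M) :
    ∃ (W : 𝒜 → Set L), (∀ a, ∀ x ∈ B a, x ∈ M → x ∈ W a) ∧
      ∃ (I : Type) (_ : Finite I) (z : I → L) (J : Set I), ModelG k W M.toSubfield z J := by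
  classical
  let g : ∀ a, C a →ₐ[k] L := fun a => (B a).val.comp (C a).val
  have hg : ∀ a (x : C a), g a x = ((x : B a) : L) := fun a x => rfl
  have hinj : ∀ a, Function.Injective (g a) := fun a =>
    Subtype.val_injective.comp Subtype.val_injective
  have hgM : ∀ a x, g a x ∈ M := fun a x => (hCn a x.1).1 x.2
  have hGE := fun a => (good_iff (g a) (isFilt_restr (hF a) (C a)) (hinj a)).1 (hgood a).1
  choose T hT e η he hcov using fun a =>
    cover_goodM (g a) (isFilt_restr (hF a) (C a)) M (hgM a) (hinj a) (hGE a) (hgood a).2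
  have hmemC : ∀ a (x : L), x ∈ B a → x ∈ M → ∃ y : C a, g a y = x := fun a x h1 h2 =>
    ⟨⟨⟨x, h1⟩, (hCn a ⟨x, h1⟩).2 h2⟩, rfl⟩
  have hratio : ∀ a b, hm 0 (h b / h a) ∈ rG (g a) (isFilt_restr (hF a) (C a)) := by
    intro a b
    obtain ⟨y, hy⟩ := hmemC a _ (hX.mem a b) (M.div_mem (hM b) (hM a))
    rw [← hy]
    exact b_rG _ _ y
  have hgl : ∀ a b, ∀ f ∈ rG (g b) (isFilt_restr (hF b) (C b)), ∃ N : ℕ,
      hm 0 (h b / h a) ^ N * f ∈ rG (g a) (isFilt_restr (hF a) (C a)) := by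
    intro a b f hf
    obtain ⟨r, hr⟩ := hmemC a _ (hX.mem a b) (M.div_mem (hM b) (hM a))
    have h1 : ∀ d : ℤ, ∃ (N : ℕ) (y : C a), y ∈ restr (F a) (C a) d.toNat ∧
        g a y = (h b / h a) ^ N * f.coeff d := by
      intro d
      obtain ⟨c, hc, hc'⟩ := hf d
      obtain ⟨N, y, hy, hy'⟩ := hX.glue a b d.toNat c.1 hc
      have hcM : ((c : B b) : L) ∈ M := hgM b c
      have hyM : (y : L) ∈ M := by
        rw [hy']
        exact M.mul_mem (pow_mem (M.div_mem (hM b) (hM a)) N) hcM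
      refine ⟨N, ⟨y, (hCn a y).2 hyM⟩, hy, ?_⟩
      change (y : L) = _
      rw [hy', ← hc']
      rfl
    choose N y hy hy' using h1
    obtain ⟨N0, hN0⟩ : ∃ N0, ∀ d ∈ f.coeff.support, N d ≤ N0 :=
      ⟨f.coeff.support.sup N, fun d hd => Finset.le_sup hd⟩
    refine ⟨N0, ?_⟩
    have h2 : hm 0 (h b / h a) ^ N0 * f = ∑ d ∈ f.coeff.support,
        hm d (g a (r ^ (N0 - N d) * y d)) := by
      conv_lhs => rw [eq_sum_hm f]
      rw [Finset.mul_sum]
      refine Finset.sum_congr rfl ?_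
      intro d hd
      have h3 := hN0 d hd
      rw [hm_pow, hm_mul, map_mul, map_pow, hy', hr, ← mul_assoc, ← pow_add,
        Nat.sub_add_cancel h3, mul_zero, zero_add]
    rw [h2]
    refine Subalgebra.sum_mem _ fun d _ => ?_
    exact hm_mem_rG _ _ (Ideal.mul_mem_left _ _ (hy d))
  have hcv : ∀ V : ValuationSubring L, (∀ c : k, algebraMap k L c ∈ V) →
      ∃ a, ∀ b, g a b ∈ V := by
    intro V hV
    obtain ⟨a, ha⟩ := hX.proper V hV
    exact ⟨a, fun b => ha _ b.1.2⟩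
  obtain ⟨ρ, H, hA⟩ := atlasG_of_covers (𝒜 := 𝒜) hcov M.toSubfield
    (fun d x hx => hm_mem_lpM.1 hx) h hne0 (fun a => hm_mem_lpM.2 (hM a)) hratio hgl hcv
  obtain ⟨I, hI, z, J, hmod⟩ := model_of_atlasG ρ hA
  refine ⟨_, ?_, I, hI, z, J, hmod⟩
  intro a x hx hxM
  obtain ⟨y, hy⟩ := hmemC a x hx hxM
  exact ⟨y, hy⟩

end Pool.Agent.U197.PQ
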