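import Pool.Agent.N98.PJ.Model

/-!
The smooth proper scheme given by the homogeneous coordinates of a smooth projective model.
-/

set_option autoImplicit false
set_option linter.unusedVariables false
set_option linter.unusedSectionVars false

open AlgebraicGeometry CategoryTheory Limits HomogeneousLocalization Pool.Agent.N98.PJ
open Pool.Agent.H968R2.Quad Pool.Agent.W558 Pool.Agent.H920R2

namespace Pool.Agent.U197.PQ

/-- Homogeneous coordinates of a smooth projective model give a smooth proper scheme. -/
theorem exists_spmG {k K 𝒜 : Type} [Field k] [Field K] [Algebra k K] {W : 𝒜 → Set K}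
    (M0 : IntermediateField k K) {I : Type} [Finite I] {z : I → K} {J : Set I}
    (hM : ModelG k W M0.toSubfield z J) :
    ∃ P : SPM k K, (∀ j, ∃ a, ∀ x ∈ W a, x ∈ P.B j) ∧ ∀ j, ∀ x ∈ P.B j, x ∈ M0 := by
  classical
  let M : Submodule k K := Submodule.span k (Set.range z)
  have hz : ∀ i, z i ∈ M := fun i => Submodule.subset_span ⟨i, rfl⟩
  have hfg : M.FG := Submodule.fg_span (Set.finite_range z)
  obtain ⟨j0, hj0, -⟩ := hM.cv ⊤ (fun _ => trivial)
  have hz0 := hM.z0
  have hB : ∀ a : K, Algebra.adjoin k {y : K | ∃ m ∈ M, y = m / a} =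
      Algebra.adjoin k (Set.range fun i => z i / a) := by
    intro a
    apply le_antisymm
    · rw [Algebra.adjoin_le_iff]
      rintro _ ⟨m, hm, rfl⟩
      change m / a ∈ Algebra.adjoin k (Set.range fun i => z i / a)
      have hm' : m ∈ Submodule.span k (Set.range z) := hm
      induction hm' using Submodule.span_induction with
      | mem x hx =>
        obtain ⟨i, rfl⟩ := hx
        exact Algebra.subset_adjoin ⟨i, rfl⟩
      | zero => rw [zero_div]; exact Subalgebra.zero_mem _
      | add x y hx' hy' hx hy => rw [add_div]; exact Subalgebra.add_mem _ (hx hx') (hy hy')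
      | smul c x hx' hx =>
        rw [Algebra.smul_def, mul_div_assoc]
        exact Subalgebra.mul_mem _ (Subalgebra.algebraMap_mem _ c) (hx hx')
    · rw [Algebra.adjoin_le_iff]
      rintro _ ⟨i, rfl⟩
      exact Algebra.subset_adjoin ⟨z i, hz i, rfl⟩
  have hint : IsIntegral (model M) := model_integral M (z j0) (hz j0) (hz0 j0 hj0)
  have hcov : ∀ y : Proj (mPiece M), ∃ j : {j // j ∈ J},
      y ∈ (chartB M (z j.1) (hz j.1) (hz0 j.1 j.2)).opensRange := by
    intro y
    obtain ⟨j, hj, hy⟩ := cover_of_valuative M z hz rfl J hz0 hM.cv y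
    rw [modelChart_opensRange] at hy
    refine ⟨⟨j, hj⟩, ?_⟩
    have h1 := chartB_opensRange M (z j) (hz j) (hz0 j hj)
    exact h1 ▸ hy
  have hev : ∀ j : {j // j ∈ J}, evalOne M (tElt M (z j.1) (hz j.1)) ≠ 0 := by
    intro j
    rw [evalOne_tElt]
    exact hz0 j.1 j.2
  refine ⟨{ Y := Proj (mPiece M)
            int := hint
            g := Proj.toSpecZero (mPiece M) ≫ Spec.map (toZeroHom M)
            pr := modelMap_isProper M (algebraMap k K).injective hfg
            sm := ?_
            J := {j // j ∈ J}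
            B := fun j => Algebra.adjoin k {y : K | ∃ m ∈ M, y = m / z j.1}
            c := fun j => chartB M (z j.1) (hz j.1) (hz0 j.1 j.2)
            oi := fun j => inferInstance
            cov := hcov
            χ := pt (mPiece M) (evalOne M) (tElt_mem M (z j0) (hz j0)) one_pos (hev ⟨j0, hj0⟩)
            hχ := fun j => ?_
            hg := fun j => chartB_toSpecZero M _ _ _
            ft := fun j => ?_ }, fun j => ?_, fun j => ?_⟩
  · have hsup : ⨆ j : {j // j ∈ J}, (chartB M (z j.1) (hz j.1) (hz0 j.1 j.2)).opensRange = ⊤ := by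
      rw [eq_top_iff]
      intro y _
      rw [TopologicalSpace.Opens.mem_iSup]
      exact hcov y
    rw [IsZariskiLocalAtSource.iff_of_iSup_eq_top (P := @AlgebraicGeometry.Smooth.{0})
      (fun j : {j // j ∈ J} => (chartB M (z j.1) (hz j.1) (hz0 j.1 j.2)).opensRange) hsup]
    intro j
    rw [← MorphismProperty.cancel_left_of_respectsIso (P := @AlgebraicGeometry.Smooth.{0})
      (chartB M (z j.1) (hz j.1) (hz0 j.1 j.2)).isoOpensRange.hom, ← Category.assoc,
      Scheme.Hom.isoOpensRange_hom_ι, chartB_toSpecZero,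
      HasRingHomProperty.Spec_iff (P := @AlgebraicGeometry.Smooth.{0})]
    have h1 := hM.sm j.1 j.2
    rw [← hB] at h1
    exact RingHom.smooth_algebraMap.2 h1
  · rw [chartB_pt M _ _ _ (hev j)]
    exact pt_eq _ _ _ _ _ _ _ _
  · rw [hB]
    exact ⟨(Set.finite_range fun i => z i / z j.1).toFinset, by rw [Set.Finite.coe_toFinset]⟩
  · obtain ⟨t, ht⟩ := hM.aa j.1 j.2
    refine ⟨t, fun x hx => ?_⟩
    change x ∈ Algebra.adjoin k {y : K | ∃ m ∈ M, y = m / z j.1}
    rw [hB]
    exact ht hx
  · intro x hx
    change x ∈ Algebra.adjoin k {y : K | ∃ m ∈ M, y = m / z j.1} at hx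
    rw [hB] at hx
    have h1 : Algebra.adjoin k (Set.range fun i => z i / z j.1) ≤ M0.toSubalgebra := by
      rw [Algebra.adjoin_le_iff]
      rintro _ ⟨i, rfl⟩
      exact M0.div_mem (hM.zK i) (hM.zK j.1)
    exact h1 hx

end Pool.Agent.U197.PQ
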