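import Pool.Agent.N98.PJ.Birat

/-!
The resolution of `Proj` of a graded domain (not necessarily generated in degree one) from smooth
charts.
-/

set_option autoImplicit false
set_option linter.unusedVariables false
set_option linter.unusedSectionVars false

open AlgebraicGeometry CategoryTheory Limits HomogeneousLocalization Pool.Agent.N98.PJ

namespace Pool.Agent.U197.PQ

section main

variable {k S L : Type} [Field k] [CommRing S] [Algebra k S] (𝒜 : ℕ → Submodule k S)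
  [GradedAlgebra 𝒜] [Field L] [Algebra k L] (ev : S →ₐ[k] L)

/-- The functions on the complement of the zeros of `f`, `f` homogeneous of degree `m`. -/
noncomputable def chG (f : S) (m : ℕ) (hf : f ∈ 𝒜 m) (h0 : ev f ≠ 0) : Subalgebra k L where
  carrier := {y : L | ∃ i : ℕ, ∃ s ∈ 𝒜 (i * m), y = ev s / ev f ^ i}
  mul_mem' := by
    rintro x y ⟨i, s, hs, rfl⟩ ⟨j, t, ht, rfl⟩
    refine ⟨i + j, s * t, ?_, ?_⟩
    · rw [add_mul]
      exact SetLike.mul_mem_graded hs ht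
    · rw [map_mul, pow_add]
      field_simp
  add_mem' := by
    rintro x y ⟨i, s, hs, rfl⟩ ⟨j, t, ht, rfl⟩
    refine ⟨i + j, s * f ^ j + t * f ^ i, ?_, ?_⟩
    · refine Submodule.add_mem _ ?_ ?_
      · rw [add_mul]
        exact SetLike.mul_mem_graded hs (SetLike.pow_mem_graded j hf)
      · rw [add_comm i j, add_mul]
        exact SetLike.mul_mem_graded ht (SetLike.pow_mem_graded i hf)
    · rw [map_add, map_mul, map_mul, map_pow, map_pow, pow_add]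
      field_simp
  algebraMap_mem' r := by
    refine ⟨0, algebraMap k S r, ?_, ?_⟩
    · rw [zero_mul]
      exact SetLike.algebraMap_mem_graded 𝒜 r
    · rw [pow_zero, div_one]
      exact (ev.commutes r).symm

lemma avG_mem (f : S) (m : ℕ) (hf : f ∈ 𝒜 m) (h0 : (ev : S →+* L) f ≠ 0) (z : Away 𝒜 f) :
    av 𝒜 (ev : S →+* L) f h0 z ∈ chG 𝒜 ev f m hf h0 := by
  obtain ⟨n, a, ha, rfl⟩ := Away.mk_surjective 𝒜 hf z
  rw [av_mk 𝒜 _ hf h0]
  exact ⟨n, a, ha, rfl⟩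

lemma mem_range_avG (f : S) (m : ℕ) (hf : f ∈ 𝒜 m) (h0 : (ev : S →+* L) f ≠ 0) (y : L)
    (hy : y ∈ chG 𝒜 ev f m hf h0) : ∃ z, av 𝒜 (ev : S →+* L) f h0 z = y := by
  obtain ⟨i, s, hs, rfl⟩ := hy
  refine ⟨Away.mk 𝒜 hf i s (by simpa using hs), ?_⟩
  rw [av_mk 𝒜 _ hf h0]
  rfl

lemma avG_injective [IsDomain S] (hev : ∀ n, ∀ s ∈ 𝒜 n, ev s = 0 → s = 0) (f : S) (m : ℕ)
    (hf1 : f ∈ 𝒜 m) (hf : (ev : S →+* L) f ≠ 0) :
    Function.Injective (av 𝒜 (ev : S →+* L) f hf) := by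
  rw [injective_iff_map_eq_zero]
  intro z hz
  obtain ⟨n, a, ha, rfl⟩ := Away.mk_surjective 𝒜 hf1 z
  rw [av_mk 𝒜 _ hf1 hf, div_eq_zero_iff] at hz
  have h1 : ev a = 0 := hz.resolve_right (pow_ne_zero n hf)
  have h2 : a = 0 := hev _ a ha h1
  apply HomogeneousLocalization.val_injective
  rw [Away.val_mk, h2, Localization.mk_zero, HomogeneousLocalization.val_zero]

set_option maxHeartbeats 1000000 in
/-- **The resolution.** -/
theorem exists_resG [IsDomain S] (M : IntermediateField k L)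
    (hev : ∀ n, ∀ s ∈ 𝒜 n, ev s = 0 → s = 0)
    (P : SPM k L) (hPM : ∀ j, ∀ z ∈ P.B j, z ∈ M)
    (hP : ∀ j, ∃ (m : ℕ) (f : S) (hf : f ∈ 𝒜 m) (h0 : ev f ≠ 0), 0 < m ∧
      (∀ y ∈ chG 𝒜 ev f m hf h0, y ∈ P.B j) ∧
      ∀ z ∈ M, ∃ a ∈ chG 𝒜 ev f m hf h0, ∃ b ∈ chG 𝒜 ev f m hf h0, b ≠ 0 ∧ z = a / b) :
    ∃ π : P.Y ⟶ Proj 𝒜, IsProper π ∧ AlgebraicGeometry.Smooth (π ≫ str 𝒜) ∧
      ∃ U : (Proj 𝒜).Opens, (U : Set (Proj 𝒜)).Nonempty ∧ IsIso (π ∣_ U) := by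
  classical
  choose m f hf1 hf0 hm hfB hK using hP
  have hint := P.int
  have hpr := P.pr
  have hsm := P.sm
  have hoi := P.oi
  let ι : ∀ j, P.B j →+* L := fun j => (P.B j).val.toRingHom
  have hι : ∀ j, Function.Injective (ι j) := fun j => Subtype.val_injective
  have hchart : ∀ j, ∀ y ∈ chG 𝒜 ev (f j) (m j) (hf1 j) (hf0 j), ∃ z : P.B j, ι j z = y :=
    fun j y hy => ⟨⟨y, hfB j y hy⟩, rfl⟩
  have hψ : ∀ j, ∃ ψ : Away 𝒜 (f j) →+* P.B j,
      (ι j).comp ψ = av 𝒜 (ev : S →+* L) (f j) (hf0 j) := fun j =>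
    exists_factor (ι j) (hι j) _ fun z => hchart j _ (avG_mem 𝒜 ev (f j) (m j) (hf1 j) (hf0 j) z)
  choose ψ hψ using hψ
  let φ : ∀ j, Spec (.of (P.B j)) ⟶ Proj 𝒜 := fun j =>
    Spec.map (CommRingCat.ofHom (ψ j)) ≫ Proj.awayι 𝒜 (f j) (hf1 j) (hm j)
  let 𝒰 : P.Y.OpenCover := Scheme.Cover.mkOfCovers P.J (fun j => Spec (.of (P.B j))) P.c
    (fun y => by
      obtain ⟨j, x, hx⟩ := P.cov y
      exact ⟨j, x, hx⟩) P.oi
  have hYne : Nonempty P.Y := inferInstance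
  obtain ⟨j0, x0, -⟩ := P.cov hYne.some
  let χ : Spec (.of L) ⟶ P.Y := P.χ
  have hζ : ∀ j, Spec.map (CommRingCat.ofHom (ι j)) ≫ P.c j = χ := fun j => P.hχ j
  have hχ : IsDominant χ := by
    rw [← hζ j0]
    have h1 : IsDominant (Spec.map (CommRingCat.ofHom (ι j0))) := isDominant_spec _ (hι j0)
    have h2 : IsDominant (P.c j0) := by
      refine ⟨?_⟩
      refine IsOpen.dense (P.c j0).isOpenEmbedding.isOpen_range ?_
      exact ⟨_, x0, rfl⟩
    infer_instance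
  have hsep : IsSeparated (str 𝒜) := isSeparated_str 𝒜
  have hφ : ∀ j, φ j ≫ str 𝒜 = P.c j ≫ P.g := by
    intro j
    change (Spec.map (CommRingCat.ofHom (ψ j)) ≫ Proj.awayι 𝒜 (f j) (hf1 j) (hm j)) ≫
      Proj.toSpecZero 𝒜 ≫ Spec.map (CommRingCat.ofHom (algebraMap k (𝒜 0))) = P.c j ≫ P.g
    rw [P.hg j, Category.assoc, Proj.awayι_toSpecZero_assoc, ← Spec.map_comp, ← Spec.map_comp]
    congr 1
    apply CommRingCat.hom_ext
    ext r
    have h1 := congrArg (fun F => F (fromZeroRingHom 𝒜 (Submonoid.powers (f j))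
      (algebraMap k (𝒜 0) r))) (hψ j)
    refine h1.trans ?_
    exact (av_fromZero 𝒜 (ev : S →+* L) (hf0 j) (algebraMap k (𝒜 0) r)).trans (ev.commutes r)
  obtain ⟨π, hπ, hπ'⟩ := exists_glue (S := Spec (.of k)) P.g (str 𝒜) 𝒰 φ hφ χ (fun j => Spec.map (CommRingCat.ofHom (ι j))) hζ
    (pt 𝒜 (ev : S →+* L) (hf1 j0) (hm j0) (hf0 j0)) (fun j => by
      change Spec.map (CommRingCat.ofHom (ι j)) ≫ Spec.map (CommRingCat.ofHom (ψ j)) ≫
        Proj.awayι 𝒜 (f j) (hf1 j) (hm j) = _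
      rw [← Category.assoc, ← Spec.map_comp, ← CommRingCat.ofHom_comp, hψ j]
      exact pt_eq 𝒜 _ _ _ _ _ _ _)
  have hprop : IsProper π := by
    have h1 : IsProper (π ≫ str 𝒜) := by rw [hπ]; exact hpr
    exact IsProper.of_comp π (str 𝒜)
  refine ⟨π, hprop, by rw [hπ]; exact hsm, ?_⟩
  -- the open subset
  obtain ⟨G, hG⟩ := P.ft j0
  have hGM : ∀ z ∈ G, z ∈ M := fun z hz =>
    hPM j0 z (by rw [← hG]; exact Algebra.subset_adjoin hz)
  have hnum : ∀ z : L, ∃ b ∈ chG 𝒜 ev (f j0) (m j0) (hf1 j0) (hf0 j0), b ≠ 0 ∧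
      (z ∈ M → z * b ∈ chG 𝒜 ev (f j0) (m j0) (hf1 j0) (hf0 j0)) := by
    intro z
    by_cases hz : z ∈ M
    · obtain ⟨a, ha, b, hb, hb0, hz⟩ := hK j0 z hz
      refine ⟨b, hb, hb0, fun _ => ?_⟩
      rw [hz, div_mul_cancel₀ _ hb0]
      exact ha
    · exact ⟨1, Subalgebra.one_mem _, one_ne_zero, fun h => absurd h hz⟩
  choose den hden hden0 hnum using hnum
  let b : L := ∏ z ∈ G, den z
  have hb : b ∈ chG 𝒜 ev (f j0) (m j0) (hf1 j0) (hf0 j0) :=
    Subalgebra.prod_mem _ fun z _ => hden z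
  have hb0 : b ≠ 0 := Finset.prod_ne_zero_iff.2 fun z _ => hden0 z
  let C := locAt (chG 𝒜 ev (f j0) (m j0) (hf1 j0) (hf0 j0)) b hb
  have hBC : ∀ z : P.B j0, ι j0 z ∈ C := by
    intro z
    have h1 : Algebra.adjoin k (G : Set L) ≤ C := by
      rw [Algebra.adjoin_le_iff]
      intro y hy
      refine ⟨1, ?_⟩
      rw [pow_one]
      change y * ∏ z ∈ G, den z ∈ _
      rw [← Finset.mul_prod_erase _ _ hy, ← mul_assoc]
      exact Subalgebra.mul_mem _ (hnum y (hGM y hy)) (Subalgebra.prod_mem _ fun z _ => hden z)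
    rw [hG] at h1
    exact h1 z.2
  let ιC : C →+* L := C.val.toRingHom
  have hιC : Function.Injective ιC := Subtype.val_injective
  obtain ⟨f1, hf1'⟩ := exists_factor ιC hιC (av 𝒜 (ev : S →+* L) (f j0) (hf0 j0)) fun z =>
    ⟨⟨_, le_locAt _ b hb (avG_mem 𝒜 ev (f j0) (m j0) (hf1 j0) (hf0 j0) z)⟩, rfl⟩
  obtain ⟨f2, hf2'⟩ := exists_factor ιC hιC (ι j0) fun z => ⟨⟨_, hBC z⟩, rfl⟩
  have h12 : f2.comp (ψ j0) = f1 := by
    apply RingHom.ext
    intro z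
    apply hιC
    have h1 := congrArg (fun F => F (ψ j0 z)) hf2'
    have h2 := congrArg (fun F => F z) hf1'
    have h3 := congrArg (fun F => F z) (hψ j0)
    exact h1.trans (h3.trans h2.symm)
  have hinvC : b⁻¹ ∈ C := inv_mem_locAt _ b hb hb0
  have hunit : ∀ c : C, ιC c = b → IsUnit c := by
    intro c hc
    refine IsUnit.of_mul_eq_one ⟨b⁻¹, hinvC⟩ ?_
    apply hιC
    rw [map_mul, hc, map_one]
    exact mul_inv_cancel₀ hb0
  obtain ⟨b1, hb1⟩ := mem_range_avG 𝒜 ev (f j0) (m j0) (hf1 j0) (hf0 j0) b hb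
  have hb1' : ιC (f1 b1) = b := by
    have h2 := congrArg (fun F => F b1) hf1'
    exact h2.trans hb1
  obtain ⟨b2, hb2⟩ := hchart j0 b hb
  have hb2' : ιC (f2 b2) = b := by
    have h2 := congrArg (fun F => F b2) hf2'
    exact h2.trans hb2
  have ho1 : IsOpenImmersion (Spec.map (CommRingCat.ofHom f1)) := by
    refine isOpenImmersion_of_loc f1 ?_ b1 (hunit _ hb1') fun c => ?_
    · intro x y hxy
      apply avG_injective 𝒜 ev hev (f j0) (m j0) (hf1 j0) (hf0 j0)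
      rw [← hf1']
      exact congrArg ιC hxy
    · obtain ⟨n, hn⟩ := c.2
      obtain ⟨a, ha⟩ := mem_range_avG 𝒜 ev (f j0) (m j0) (hf1 j0) (hf0 j0) _ hn
      refine ⟨n, a, ?_⟩
      apply hιC
      rw [map_mul, map_pow, hb1']
      have h2 := congrArg (fun F => F a) hf1'
      exact (h2.trans ha).symm
  have ho2 : IsOpenImmersion (Spec.map (CommRingCat.ofHom f2)) := by
    refine isOpenImmersion_of_loc f2 ?_ b2 (hunit _ hb2') fun c => ?_
    · intro x y hxy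
      apply hι j0
      rw [← hf2']
      exact congrArg ιC hxy
    · obtain ⟨n, hn⟩ := c.2
      obtain ⟨a, ha⟩ := hchart j0 _ hn
      refine ⟨n, a, ?_⟩
      apply hιC
      rw [map_mul, map_pow, hb2']
      have h2 := congrArg (fun F => F a) hf2'
      exact (h2.trans ha).symm
  let a : Spec (.of C) ⟶ Proj 𝒜 :=
    Spec.map (CommRingCat.ofHom f1) ≫ Proj.awayι 𝒜 (f j0) (hf1 j0) (hm j0)
  let b' : Spec (.of C) ⟶ P.Y := Spec.map (CommRingCat.ofHom f2) ≫ P.c j0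
  have hab : b' ≫ π = a := by
    change (Spec.map (CommRingCat.ofHom f2) ≫ P.c j0) ≫ π = _
    have h1 : P.c j0 ≫ π = φ j0 := hπ' j0
    rw [Category.assoc, h1]
    change Spec.map (CommRingCat.ofHom f2) ≫ Spec.map (CommRingCat.ofHom (ψ j0)) ≫ _ = _
    rw [← Category.assoc, ← Spec.map_comp, ← CommRingCat.ofHom_comp, h12]
  have hiso : IsIso (pullback.snd π a) := isIso_snd π a b' hab
  refine ⟨a.opensRange, ?_, isIso_restrict π a⟩
  exact ⟨_, Classical.arbitrary (Spec (.of C)), rfl⟩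

end main

end Pool.Agent.U197.PQ
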