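import Pool.Agent.U197.PQ.D1

/-!
The leading forms of the automorphism or derivation on the charts of projective space.
-/

set_option autoImplicit false
set_option linter.unusedSectionVars false

open MvPolynomial Pool.Agent.H920R2 Pool.Agent.Y177.Tor Pool.Agent.H519R3.RS Pool.Agent.Y177.Ga

universe u

namespace Pool.Agent.U197.PQ

variable {k : Type u} [Field k] {m : ℕ} {p : ℕ} {N : Module.End k (Fin (m + 1) → k)}
  {B : Type u} [CommRing B] [Algebra k B]

section lead

variable (x : (Fin (m + 1) → k) →ₗ[k] B) (b : Fin (m + 1) → k) (δ : B → B) (t : B)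
  (ht : ∀ v, x (N v) = t * δ (x v) + x v * x (N b))

include ht in
lemma step_lead (w : ℕ) (v : Fin (m + 1) → k) :
    x ((N ^ w) v) - x v * x (N b) ^ w ∈ leadI δ (Gf (Gx x N)) 1 w := by
  induction w with
  | zero =>
    rw [pow_zero, pow_zero, mul_one]
    change x v - x v ∈ _
    rw [sub_self]
    exact Ideal.zero_mem _
  | succ w ih =>
    have h1 : x ((N ^ (w + 1)) v) = t * δ (x ((N ^ w) v)) + x ((N ^ w) v) * x (N b) := by
      rw [← ht, pow_succ']
      rfl
    have h2 : x ((N ^ (w + 1)) v) - x v * x (N b) ^ (w + 1) =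
        t * δ (x ((N ^ w) v)) + (x ((N ^ w) v) - x v * x (N b) ^ w) * x (N b) := by
      rw [h1]; ring
    rw [h2]
    refine Ideal.add_mem _ ?_ ?_
    · refine leadI_gen _ _ 1 (e := w) (gen_mem _ ⟨v, rfl⟩) ?_
      rw [Nat.sub_self, Gf_zero]
      trivial
    · refine leadI_mul _ _ 1 ih (gen_mem _ ⟨b, ?_⟩)
      rw [pow_one]

include ht in
lemma step_mod (P : Ideal B) (hδ : ∀ c, δ c ∈ P) (w : ℕ) (v : Fin (m + 1) → k) :
    x ((N ^ w) v) - x v * x (N b) ^ w ∈ P := by
  induction w with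
  | zero =>
    rw [pow_zero, pow_zero, mul_one]
    change x v - x v ∈ _
    rw [sub_self]
    exact Ideal.zero_mem _
  | succ w ih =>
    have h1 : x ((N ^ (w + 1)) v) = t * δ (x ((N ^ w) v)) + x ((N ^ w) v) * x (N b) := by
      rw [← ht, pow_succ']
      rfl
    have h2 : x ((N ^ (w + 1)) v) - x v * x (N b) ^ (w + 1) =
        t * δ (x ((N ^ w) v)) + (x ((N ^ w) v) - x v * x (N b) ^ w) * x (N b) := by
      rw [h1]; ring
    rw [h2]
    exact Ideal.add_mem _ (Ideal.mul_mem_left _ _ (hδ _)) (Ideal.mul_mem_right _ _ ih)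

lemma Fx_one_le (P : Ideal B) (h : ∀ w v, 1 ≤ w → x ((N ^ w) v) ∈ P) : Fx x N 1 ≤ P := by
  have h1 : Gf (Gx x N) 1 ≤ (fun d : ℕ => if d = 0 then (⊤ : Ideal B) else P) 1 := by
    refine Gf_le (W := fun d : ℕ => if d = 0 then (⊤ : Ideal B) else P) _
      (if_pos rfl) ?_ ?_ ?_ 1
    · intro a b hab
      split_ifs with h2 h3 h3
      · exact le_rfl
      · omega
      · exact le_top
      · exact le_rfl
    · intro a b
      by_cases ha : a = 0
      · subst ha
        rw [if_pos rfl, zero_add]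
        refine Ideal.mul_le.2 fun x _ y hy => Ideal.mul_mem_left _ _ hy
      · rw [if_neg ha, if_neg (show ¬ a + b = 0 by omega)]
        refine Ideal.mul_le.2 fun x hx y _ => Ideal.mul_mem_right _ _ hx
    · rintro _ w ⟨v, rfl⟩
      split_ifs with h2
      · trivial
      · exact h w v (by omega)
  have h2 : Gf (Gx x N) 1 ≤ P := by simpa using h1
  exact h2

variable (hxb : x b = 1) (hN : N ^ p = 0)

include ht hxb hN in
/-- The zeros of `δ`. -/
lemma fix_x (P : Ideal B) (hP : P.IsPrime) (hδ : ∀ c, δ c ∈ P) : Fx x N 1 ≤ P := by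
  have h1 := step_mod x b δ t ht P hδ p b
  rw [hN, LinearMap.zero_apply, map_zero, hxb, one_mul, zero_sub] at h1
  have h2 : x (N b) ∈ P := hP.mem_of_pow_mem _ ((Ideal.neg_mem_iff _).1 h1)
  refine Fx_one_le x P fun w v hw => ?_
  have h3 := step_mod x b δ t ht P hδ w v
  have h4 : x v * x (N b) ^ w ∈ P :=
    Ideal.mul_mem_left _ _ (Ideal.pow_mem_of_mem _ h2 w hw)
  have h5 := P.add_mem h3 h4
  rwa [sub_add_cancel] at h5

include ht hxb hN in
/-- The zeros of the leading form of `δ`. -/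
lemma lead_x [hp : Fact p.Prime] [CharP B p] (d : ℕ) (hd : 1 ≤ d) (a : B) (ha : a ∈ Fx x N d) :
    ∃ M : ℕ, a ^ M ∈ leadI δ (Fx x N) 1 (M * d) := by
  have hz : x (N b) ^ p ∈ leadI δ (Gf (Gx x N)) 1 p := by
    have h1 := step_lead x b δ t ht p b
    rw [hN, LinearMap.zero_apply, map_zero, hxb, one_mul, zero_sub] at h1
    exact (Ideal.neg_mem_iff _).1 h1
  have hzF : x (N b) ∈ Gf (Gx x N) 1 := gen_mem _ ⟨b, by rw [pow_one]⟩
  refine leadI_of_gens _ _ 1 ?_ d hd a ha
  rintro _ w ⟨v, rfl⟩ hw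
  refine ⟨p, ?_⟩
  set c : B := x ((N ^ w) v) - x v * x (N b) ^ w with hc
  have hcL : c ∈ leadI δ (Gf (Gx x N)) 1 w := step_lead x b δ t ht w v
  have hcF : c ∈ Gf (Gx x N) w := by
    refine Ideal.sub_mem _ (gen_mem _ ⟨v, rfl⟩) (Ideal.mul_mem_left _ _ ?_)
    have := pow_mem_Gf _ hzF w
    rwa [mul_one] at this
  have h1 : x ((N ^ w) v) ^ p = c ^ p + x v ^ p * (x (N b) ^ p) ^ w := by
    have h2 : x ((N ^ w) v) = c + x v * x (N b) ^ w := by rw [hc]; ring
    rw [h2, add_pow_char, mul_pow, ← pow_mul, ← pow_mul, mul_comm w p]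
  rw [h1]
  have hp1 : p = (p - 1) + 1 := by have := hp.out.pos; omega
  refine Ideal.add_mem _ ?_ (Ideal.mul_mem_left _ _ ?_)
  · have h3 : c ^ p = c * c ^ (p - 1) := by
      rw [← pow_succ', ← hp1]
    have h4 : p * w = w + (p - 1) * w := by
      conv_lhs => rw [hp1]
      ring
    rw [h3, h4]
    exact leadI_mul _ _ 1 hcL (pow_mem_Gf _ hcF (p - 1))
  · obtain ⟨w', rfl⟩ := Nat.exists_eq_succ_of_ne_zero (show w ≠ 0 by omega)
    rw [pow_succ', Nat.succ_eq_add_one, mul_add, mul_one, add_comm]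
    refine leadI_mul _ _ 1 hz ?_
    rw [← pow_mul]
    have := pow_mem_Gf _ hzF (p * w')
    rwa [mul_one] at this

end lead

section raise

variable (x : (Fin (m + 1) → k) →ₗ[k] B) (b : Fin (m + 1) → k)
  (hgen : Algebra.adjoin k ({y : B | ∃ v, y = x v} ∪ {y : B | ∃ v, y * x v = 1}) = ⊤)

include hgen in
/-- The automorphism raises the weights. -/
lemma raise_sig (σ : B ≃ₐ[k] B) (t : B)
    (hσ : ∀ v, σ (x v) - x v = t * (x (N v) - x v * x (N b))) (d : ℕ) (a : B)
    (ha : a ∈ Fx x N d) : σ a - a ∈ Fx x N (d + 1) := by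
  have hv : ∀ v, σ (x v) - x v ∈ Gf (Gx x N) 1 := by
    intro v
    rw [hσ]
    refine Ideal.mul_mem_left _ _ (Ideal.sub_mem _ (gen_mem _ ⟨v, by rw [pow_one]⟩)
      (Ideal.mul_mem_left _ _ (gen_mem _ ⟨b, by rw [pow_one]⟩)))
  refine sigma_raise (Gx x N) σ ?_ ?_ d a ha
  · intro y
    have hy : y ∈ Algebra.adjoin k ({y : B | ∃ v, y = x v} ∪ {y : B | ∃ v, y * x v = 1}) := by
      rw [hgen]; trivial
    induction hy using Algebra.adjoin_induction with
    | mem y hy =>
      rcases hy with ⟨v, rfl⟩ | ⟨v, hv1⟩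
      · exact hv v
      · have h1 : σ y * σ (x v) = 1 := by rw [← map_mul, hv1, map_one]
        have h2 : σ y - y = -(y * σ y) * (σ (x v) - x v) := by
          have h3 : y * x v = 1 := hv1
          calc σ y - y = σ y * (y * x v) - y * (σ y * σ (x v)) := by rw [h3, h1, mul_one, mul_one]
            _ = _ := by ring
        rw [h2]
        exact Ideal.mul_mem_left _ _ (hv v)
    | algebraMap r => rw [AlgEquiv.commutes, sub_self]; exact Ideal.zero_mem _
    | add y z _ _ hy hz =>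
      have : σ (y + z) - (y + z) = (σ y - y) + (σ z - z) := by rw [map_add]; ring
      rw [this]
      exact Ideal.add_mem _ hy hz
    | mul y z _ _ hy hz =>
      have : σ (y * z) - (y * z) = (σ y - y) * σ z + y * (σ z - z) := by rw [map_mul]; ring
      rw [this]
      exact Ideal.add_mem _ (Ideal.mul_mem_right _ _ hy) (Ideal.mul_mem_left _ _ hz)
  · rintro _ w ⟨v, rfl⟩
    rw [hσ]
    refine Ideal.mul_mem_left _ _ (Ideal.sub_mem _ (gen_mem _ ⟨v, ?_⟩) ?_)
    · rw [pow_succ']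
      rfl
    · exact mul_mem_Gf _ (gen_mem _ ⟨v, rfl⟩) (gen_mem _ ⟨b, by rw [pow_one]⟩)

/-- The elements whose derivatives have large weight. -/
def WD (x : (Fin (m + 1) → k) →ₗ[k] B) (N : Module.End k (Fin (m + 1) → k))
    (D : Derivation k B B) (h1 : ∀ a, D a ∈ Gf (Gx x N) 1) (d : ℕ) : Ideal B where
  carrier := {a | a ∈ Gf (Gx x N) d ∧ D a ∈ Gf (Gx x N) (d + 1)}
  zero_mem' := ⟨Ideal.zero_mem _, by rw [map_zero]; exact Ideal.zero_mem _⟩
  add_mem' := fun {a c} ha hc => ⟨Ideal.add_mem _ ha.1 hc.1, by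
    rw [map_add]; exact Ideal.add_mem _ ha.2 hc.2⟩
  smul_mem' := fun r a ha => ⟨Ideal.mul_mem_left _ _ ha.1, by
    rw [smul_eq_mul, Derivation.leibniz, smul_eq_mul, smul_eq_mul]
    exact Ideal.add_mem _ (Ideal.mul_mem_left _ _ ha.2) (mul_mem_Gf _ ha.1 (h1 r))⟩

include hgen in
/-- The derivation raises the weights. -/
lemma raise_der (D : Derivation k B B)
    (hD : ∀ v, D (x v) = x (N v) - x v * x (N b)) (d : ℕ) (a : B)
    (ha : a ∈ Fx x N d) : D a ∈ Fx x N (d + 1) := by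
  have hv : ∀ v, D (x v) ∈ Gf (Gx x N) 1 := by
    intro v
    rw [hD]
    refine (Ideal.sub_mem _ (gen_mem _ ⟨v, by rw [pow_one]⟩)
      (Ideal.mul_mem_left _ _ (gen_mem _ ⟨b, by rw [pow_one]⟩)))
  have h1 : ∀ a, D a ∈ Gf (Gx x N) 1 := by
    intro y
    have hy : y ∈ Algebra.adjoin k ({y : B | ∃ v, y = x v} ∪ {y : B | ∃ v, y * x v = 1}) := by
      rw [hgen]; trivial
    induction hy using Algebra.adjoin_induction with
    | mem y hy =>
      rcases hy with ⟨v, rfl⟩ | ⟨v, hv1⟩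
      · exact hv v
      · have h1 : y * D (x v) + x v * D y = 0 := by
          have h2 := Derivation.leibniz D y (x v)
          rw [hv1, smul_eq_mul, smul_eq_mul, Derivation.map_one_eq_zero] at h2
          exact h2.symm
        have h2 : D y = -(y * y) * D (x v) := by
          have h3 : y * x v = 1 := hv1
          calc D y = (y * x v) * D y := by rw [h3, one_mul]
            _ = y * (x v * D y) := by ring
            _ = y * (-(y * D (x v))) := by rw [← eq_neg_of_add_eq_zero_right h1]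
            _ = _ := by ring
        rw [h2]
        exact Ideal.mul_mem_left _ _ (hv v)
    | algebraMap r => rw [Derivation.map_algebraMap]; exact Ideal.zero_mem _
    | add y z _ _ hy hz =>
      rw [map_add]
      exact Ideal.add_mem _ hy hz
    | mul y z _ _ hy hz =>
      rw [Derivation.leibniz, smul_eq_mul, smul_eq_mul]
      exact Ideal.add_mem _ (Ideal.mul_mem_left _ _ hz) (Ideal.mul_mem_left _ _ hy)
  have key : Gf (Gx x N) d ≤ WD x N D h1 d := by
    refine Gf_le _ ?_ ?_ ?_ ?_ d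
    · rw [Ideal.eq_top_iff_one]
      exact ⟨by rw [Gf_zero]; trivial, h1 1⟩
    · intro i j hij a ha
      exact ⟨Gf_anti _ _ _ hij ha.1, Gf_anti _ _ _ (by omega) ha.2⟩
    · intro i j
      refine Ideal.mul_le.2 fun y hy z hz => ⟨mul_mem_Gf _ hy.1 hz.1, ?_⟩
      rw [Derivation.leibniz, smul_eq_mul, smul_eq_mul]
      refine Ideal.add_mem _ ?_ ?_
      · have := mul_mem_Gf _ hy.1 hz.2
        rwa [← add_assoc] at this
      · have := mul_mem_Gf _ hz.1 hy.2
        refine Gf_anti _ _ _ (by omega) this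
    · rintro _ w ⟨v, rfl⟩
      refine ⟨gen_mem _ ⟨v, rfl⟩, ?_⟩
      rw [hD]
      refine Ideal.sub_mem _ (gen_mem _ ⟨v, ?_⟩) ?_
      · rw [pow_succ']
        rfl
      · exact mul_mem_Gf _ (gen_mem _ ⟨v, rfl⟩) (gen_mem _ ⟨b, by rw [pow_one]⟩)
  exact (key ha).2

end raise

end Pool.Agent.U197.PQ
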