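import Pool.Agent.U197.PQ.D2
import Pool.Agent.N98.PJ.Birat

/-!
The charts of projective space inside the field of rational functions.
-/

set_option autoImplicit false
set_option linter.unusedSectionVars false

open MvPolynomial Pool.Agent.H920R2 Pool.Agent.Y177.Tor Pool.Agent.H519R3.RS Pool.Agent.Y177.Ga

namespace Pool.Agent.U197.PQ

section field

variable (k : Type) [Field k] (m : ℕ)

/-- The field of rational functions. -/
abbrev KF : Type := FractionRing (MvPolynomial (Fin (m + 1)) k)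

/-- The embedding of the polynomials. -/
noncomputable def ev : MvPolynomial (Fin (m + 1)) k →ₐ[k] KF k m :=
  IsScalarTower.toAlgHom k (MvPolynomial (Fin (m + 1)) k) (KF k m)

/-- The linear forms as rational functions. -/
noncomputable def ee : (Fin (m + 1) → k) →ₗ[k] KF k m := (ev k m).toLinearMap ∘ₗ ln k (m + 1)

variable {k m}

lemma ev_inj : Function.Injective (ev k m) :=
  IsFractionRing.injective (MvPolynomial (Fin (m + 1)) k) (KF k m)

lemma ee_apply (v : Fin (m + 1) → k) : ee k m v = ev k m (ln k (m + 1) v) := rfl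

lemma ev_ne {s : MvPolynomial (Fin (m + 1)) k} (h : s ≠ 0) : ev k m s ≠ 0 :=
  fun h0 => h (ev_inj (by rw [h0, map_zero]))

lemma ln_hom (v : Fin (m + 1) → k) : (ln k (m + 1) v).IsHomogeneous 1 := by
  change (∑ i, v i • (X i : MvPolynomial (Fin (m + 1)) k)).IsHomogeneous 1
  refine IsHomogeneous.sum _ _ _ fun i _ => ?_
  rw [smul_eq_C_mul]
  have := (isHomogeneous_C (Fin (m + 1)) (v i)).mul (isHomogeneous_X k i)
  rwa [zero_add] at this

lemma ln_ne {v : Fin (m + 1) → k} (h : v ≠ 0) : ln k (m + 1) v ≠ 0 := by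
  intro h0
  apply h
  funext i
  have h1 : coeff (Finsupp.single i 1) (ln k (m + 1) v) = v i := by
    change coeff (Finsupp.single i 1) (∑ j, v j • (X j : MvPolynomial (Fin (m + 1)) k)) = v i
    rw [coeff_sum, Finset.sum_eq_single i]
    · rw [coeff_smul, coeff_X, smul_eq_mul, if_pos rfl, mul_one]
    · intro j _ hj
      rw [coeff_smul, coeff_X, if_neg, smul_zero]
      intro h2
      exact hj (Finsupp.single_left_injective one_ne_zero h2)
    · intro h2
      exact absurd (Finset.mem_univ i) h2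
  rw [← h1, h0, coeff_zero]
  rfl

lemma ee_ne {v : Fin (m + 1) → k} (h : v ≠ 0) : ee k m v ≠ 0 := ev_ne (ln_ne h)

/-- The chart of projective space which is the complement of the zeros of the linear forms
`γ i`. -/
noncomputable def Bc {e : ℕ} (b : Fin (m + 1) → k) (γ : Fin e → Fin (m + 1) → k) :
    Subalgebra k (KF k m) :=
  Algebra.adjoin k ({y | ∃ v, y = ee k m v / ee k m b} ∪ {y | ∃ i, y = ee k m b / ee k m (γ i)})

variable {e : ℕ} {b : Fin (m + 1) → k} {γ : Fin e → Fin (m + 1) → k}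

lemma x_mem (v : Fin (m + 1) → k) : ee k m v / ee k m b ∈ Bc b γ :=
  Algebra.subset_adjoin (Or.inl ⟨v, rfl⟩)

lemma y_mem (i : Fin e) : ee k m b / ee k m (γ i) ∈ Bc b γ :=
  Algebra.subset_adjoin (Or.inr ⟨i, rfl⟩)

variable (b γ) in
/-- The coordinates of the chart. -/
noncomputable def xb : (Fin (m + 1) → k) →ₗ[k] Bc b γ where
  toFun v := ⟨ee k m v / ee k m b, x_mem v⟩
  map_add' u v := Subtype.ext (by
    change ee k m (u + v) / ee k m b = ee k m u / ee k m b + ee k m v / ee k m b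
    rw [map_add, add_div])
  map_smul' c v := Subtype.ext (by
    change ee k m (c • v) / ee k m b = c • (ee k m v / ee k m b)
    rw [map_smul, smul_div_assoc])

lemma coe_xb (v : Fin (m + 1) → k) : ((xb b γ v : Bc b γ) : KF k m) = ee k m v / ee k m b := rfl

lemma xb_b (hb : b ≠ 0) : xb b γ b = 1 := Subtype.ext (div_self (ee_ne hb))

lemma xb_unit (hb : b ≠ 0) (hγ : ∀ i, γ i ≠ 0) (i : Fin e) :
    (⟨ee k m b / ee k m (γ i), y_mem i⟩ : Bc b γ) * xb b γ (γ i) = 1 := by
  apply Subtype.ext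
  change ee k m b / ee k m (γ i) * (ee k m (γ i) / ee k m b) = 1
  have h1 := ee_ne hb
  have h2 := ee_ne (hγ i)
  field_simp

lemma Bc_gen (hb : b ≠ 0) (hγ : ∀ i, γ i ≠ 0) :
    Algebra.adjoin k ({y : Bc b γ | ∃ v, y = xb b γ v} ∪ {y : Bc b γ | ∃ v, y * xb b γ v = 1}) =
      ⊤ := by
  rw [eq_top_iff]
  rintro ⟨y, hy⟩ -
  have h1 : Bc b γ ≤ (Algebra.adjoin k ({y : Bc b γ | ∃ v, y = xb b γ v} ∪
      {y : Bc b γ | ∃ v, y * xb b γ v = 1})).map (Bc b γ).val := by
    conv_lhs => rw [Bc]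
    rw [Algebra.adjoin_le_iff]
    rintro _ (⟨v, rfl⟩ | ⟨i, rfl⟩)
    · exact ⟨xb b γ v, Algebra.subset_adjoin (Or.inl ⟨v, rfl⟩), rfl⟩
    · exact ⟨⟨_, y_mem i⟩, Algebra.subset_adjoin (Or.inr ⟨γ i, xb_unit hb hγ i⟩), rfl⟩
  obtain ⟨z, hz, hz'⟩ := h1 hy
  have h2 : z = ⟨y, hy⟩ := Subtype.ext hz'
  rw [← h2]
  exact hz

section etale

variable (c : Module.Basis (Fin (m + 1)) k (Fin (m + 1) → k))

/-- The dehomogenization of linear forms. -/
noncomputable def hdl : (Fin (m + 1) → k) →ₗ[k] MvPolynomial (Fin m) k :=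
  c.constr k (Fin.cons 1 (fun j => X j))

lemma hdl_zero : hdl c (c 0) = 1 := by
  unfold hdl
  rw [Module.Basis.constr_basis]
  rfl

lemma hdl_succ (j : Fin m) : hdl c (c j.succ) = X j := by
  unfold hdl
  rw [Module.Basis.constr_basis]
  rfl

/-- The dehomogenization. -/
noncomputable def deh : MvPolynomial (Fin (m + 1)) k →ₐ[k] MvPolynomial (Fin m) k :=
  aeval fun i => hdl c (Pi.single i 1)

lemma sum_single (v : Fin (m + 1) → k) : ∑ i, v i • (Pi.single i 1 : Fin (m + 1) → k) = v := by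
  funext j
  simp [Finset.sum_apply, Pi.single_apply]

lemma deh_ln (v : Fin (m + 1) → k) : deh c (ln k (m + 1) v) = hdl c v := by
  change deh c (∑ i, v i • (X i : MvPolynomial (Fin (m + 1)) k)) = _
  rw [map_sum]
  conv_rhs => rw [← sum_single v, map_sum]
  refine Finset.sum_congr rfl fun i _ => ?_
  rw [map_smul, map_smul]
  unfold deh
  rw [aeval_X]

lemma exists_hom (a : MvPolynomial (Fin m) k) : ∃ (d : ℕ) (s : MvPolynomial (Fin (m + 1)) k),
    s.IsHomogeneous d ∧ deh c s = a := by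
  induction a using MvPolynomial.induction_on with
  | C r => exact ⟨0, C r, isHomogeneous_C _ _, (deh c).commutes r⟩
  | add a1 a2 h1 h2 =>
    obtain ⟨d1, s1, hs1, rfl⟩ := h1
    obtain ⟨d2, s2, hs2, rfl⟩ := h2
    have hb := deh_ln c (c 0)
    rw [hdl_zero] at hb
    refine ⟨d1 + d2, s1 * ln k (m + 1) (c 0) ^ d2 + s2 * ln k (m + 1) (c 0) ^ d1, ?_, ?_⟩
    · refine IsHomogeneous.add ?_ ?_
      · have := hs1.mul ((ln_hom (c 0)).pow d2)
        rwa [one_mul] at this
      · have := hs2.mul ((ln_hom (c 0)).pow d1)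
        rwa [one_mul, add_comm d2 d1] at this
    · rw [map_add, map_mul, map_mul, map_pow, map_pow, hb, one_pow, one_pow, mul_one, mul_one]
  | mul_X a j h =>
    obtain ⟨d, s, hs, rfl⟩ := h
    refine ⟨d + 1, s * ln k (m + 1) (c j.succ), hs.mul (ln_hom _), ?_⟩
    rw [map_mul, deh_ln, hdl_succ]

/-- The values of homogeneous polynomials in affine coordinates. -/
lemma aeval_div (s : MvPolynomial (Fin (m + 1)) k) (d : ℕ) (hs : s.IsHomogeneous d)
    (u : KF k m) :
    aeval (fun i => ee k m (Pi.single i 1) / u) s = ev k m s / u ^ d := by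
  have h1 : ∀ i, ee k m (Pi.single i 1) = ev k m (X i) := by
    intro i
    rw [ee_apply, ln_single]
  have h2 : ev k m s = aeval (fun i => ee k m (Pi.single i 1)) s := by
    have h3 : ev k m = aeval (fun i => ee k m (Pi.single i 1)) := by
      apply MvPolynomial.algHom_ext
      intro i
      rw [aeval_X, h1]
    rw [← h3]
  rw [h2, aeval_def, aeval_def, eval₂_eq', eval₂_eq', Finset.sum_div]
  refine Finset.sum_congr rfl fun α hα => ?_
  have h4 : ∑ i, α i = d := by
    have := hs (mem_support_iff.1 hα)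
    rw [← this, Finsupp.weight_apply, Finsupp.sum_fintype _ _ (fun i => by simp)]
    simp
  rw [mul_div_assoc]
  congr 1
  simp_rw [div_pow]
  rw [Finset.prod_div_distrib, Finset.prod_pow_eq_pow_sum, h4]

variable (b γ) in
/-- The affine coordinates. -/
noncomputable def phi : MvPolynomial (Fin m) k →ₐ[k] Bc b γ := aeval fun j => xb b γ (c j.succ)

variable {c} (hc0 : c 0 = b) (hb : b ≠ 0) (hγ : ∀ i, γ i ≠ 0)

include hc0 hb in
lemma phi_hdl (v : Fin (m + 1) → k) : phi b γ c (hdl c v) = xb b γ v := by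
  have h1 : (phi b γ c).toLinearMap ∘ₗ hdl c = xb b γ := by
    apply c.ext
    intro i
    rcases Fin.eq_zero_or_eq_succ i with rfl | ⟨j, rfl⟩
    · change phi b γ c (hdl c (c 0)) = _
      rw [hdl_zero, map_one, hc0, xb_b hb]
    · change phi b γ c (hdl c (c j.succ)) = _
      rw [hdl_succ]
      unfold phi
      rw [aeval_X]
  exact congrArg (fun f => f v) h1

include hc0 hb in
lemma coe_phi_deh (s : MvPolynomial (Fin (m + 1)) k) :
    ((phi b γ c (deh c s) : Bc b γ) : KF k m) =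
      aeval (fun i => ee k m (Pi.single i 1) / ee k m b) s := by
  have h1 : ((Bc b γ).val.comp (phi b γ c)).comp (deh c) =
      aeval (fun i => ee k m (Pi.single i 1) / ee k m b) := by
    apply MvPolynomial.algHom_ext
    intro i
    rw [aeval_X]
    change ((phi b γ c (deh c (X i)) : Bc b γ) : KF k m) = _
    rw [← ln_single, deh_ln, phi_hdl hc0 hb]
    rfl
  rw [← h1]
  rfl

include hc0 hb in
lemma phi_inj : Function.Injective (phi b γ c) := by
  rw [injective_iff_map_eq_zero]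
  intro a ha
  obtain ⟨d, s, hs, rfl⟩ := exists_hom c a
  have h1 := coe_phi_deh (γ := γ) hc0 hb s
  rw [ha, aeval_div s d hs] at h1
  have h2 : ev k m s = 0 := by
    have h3 : ee k m b ^ d ≠ 0 := pow_ne_zero _ (ee_ne hb)
    have h4 : (0 : KF k m) = ev k m s / ee k m b ^ d := h1
    rcases div_eq_zero_iff.1 h4.symm with h | h
    · exact h
    · exact absurd h h3
  have h3 : s = 0 := ev_inj (by rw [h2, map_zero])
  rw [h3, map_zero]

include hc0 hb hγ in
/-- The affine coordinates are étale. -/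
theorem phi_etale : ((phi b γ c : MvPolynomial (Fin m) k →ₐ[k] Bc b γ) :
    MvPolynomial (Fin m) k →+* Bc b γ).Etale := by
  classical
  let A := MvPolynomial (Fin m) k
  let g : A := ∏ i, hdl c (γ i)
  have hg : phi b γ c g = ∏ i, xb b γ (γ i) := by
    change phi b γ c (∏ i, hdl c (γ i)) = _
    rw [map_prod]
    exact Finset.prod_congr rfl fun i _ => phi_hdl hc0 hb _
  have hunit : IsUnit (phi b γ c g) := by
    rw [hg]
    rw [IsUnit.prod_univ_iff]
    intro i
    exact IsUnit.of_mul_eq_one _ (by rw [mul_comm]; exact xb_unit hb hγ i)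
  let R : Subalgebra k (KF k m) := (phi b γ c).range.map (Bc b γ).val
  have hgR : ((phi b γ c g : Bc b γ) : KF k m) ∈ R := ⟨phi b γ c g, ⟨g, rfl⟩, rfl⟩
  have hle : Bc b γ ≤ Pool.Agent.N98.PJ.locAt R ((phi b γ c g : Bc b γ) : KF k m) hgR := by
    conv_lhs => rw [Bc]
    rw [Algebra.adjoin_le_iff]
    rintro _ (⟨v, rfl⟩ | ⟨i, rfl⟩)
    · refine ⟨0, ?_⟩
      rw [pow_zero, mul_one]
      exact ⟨xb b γ v, ⟨hdl c v, phi_hdl hc0 hb v⟩, rfl⟩
    · refine ⟨1, ?_⟩
      rw [pow_one]
      refine ⟨phi b γ c (∏ j ∈ Finset.univ.erase i, hdl c (γ j)), ⟨_, rfl⟩, ?_⟩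
      change ((phi b γ c (∏ j ∈ Finset.univ.erase i, hdl c (γ j)) : Bc b γ) : KF k m) =
        ee k m b / ee k m (γ i) * ((phi b γ c g : Bc b γ) : KF k m)
      have h1 : phi b γ c g = xb b γ (γ i) *
          phi b γ c (∏ j ∈ Finset.univ.erase i, hdl c (γ j)) := by
        rw [← phi_hdl hc0 hb, ← map_mul,
          Finset.mul_prod_erase Finset.univ (fun j => hdl c (γ j)) (Finset.mem_univ i)]
      have h2 := congrArg (fun z : Bc b γ => (z : KF k m)) (xb_unit (m := m) hb hγ i)
      have h3 : ee k m b / ee k m (γ i) * ((xb b γ (γ i) : Bc b γ) : KF k m) = 1 := h2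
      rw [h1]
      change _ = ee k m b / ee k m (γ i) * (((xb b γ (γ i) : Bc b γ) : KF k m) *
        ((phi b γ c (∏ j ∈ Finset.univ.erase i, hdl c (γ j)) : Bc b γ) : KF k m))
      rw [← mul_assoc, h3, one_mul]
  let _ : Algebra A (Bc b γ) := ((phi b γ c : A →ₐ[k] Bc b γ) : A →+* Bc b γ).toAlgebra
  have hAB : ∀ q : A, algebraMap A (Bc b γ) q = phi b γ c q := fun q => rfl
  have hinj := phi_inj (γ := γ) hc0 hb
  have hloc : IsLocalization.Away g (Bc b γ) := by
    refine (isLocalization_iff (M := Submonoid.powers g) (S := Bc b γ)).2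
      ⟨fun y => ?_, fun z => ?_, fun {x y} hxy => ?_⟩
    · obtain ⟨_, n, rfl⟩ := y
      change IsUnit (phi b γ c (g ^ n))
      rw [map_pow]
      exact hunit.pow n
    · obtain ⟨n, _, ⟨a, rfl⟩, hn⟩ := hle z.2
      refine ⟨⟨a, ⟨g ^ n, n, rfl⟩⟩, ?_⟩
      change z * phi b γ c (g ^ n) = phi b γ c a
      rw [map_pow]
      exact Subtype.ext hn.symm
    · exact ⟨1, by rw [hinj hxy]⟩
  have h1 : Algebra.Etale A (Bc b γ) := Algebra.Etale.of_isLocalizationAway g
  exact h1

end etale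

/-- The charts are smooth. -/
lemma smooth_Bc (hb : b ≠ 0) (hγ : ∀ i, γ i ≠ 0) : Algebra.Smooth k (Bc b γ) := by
  obtain ⟨c, hc⟩ := exists_basis0 b hb
  exact smooth_of_etale _ (phi_etale hc hb hγ)

/-- The weighted centre of a chart. -/
lemma centre_Bc {p : ℕ} {N : Module.End k (Fin (m + 1) → k)} (hN : N ^ p = 0) (hb : b ≠ 0)
    (hγ : ∀ i, γ i ≠ 0) : RegularWeightedCentre k (Fx (xb b γ) N) :=
  centre_Fx hN (xb b γ) b (xb_b hb) fun c hc => phi_etale hc hb hγ

end field

end Pool.Agent.U197.PQ
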