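import Pool.Agent.U197.PQ.D3
import Pool.Agent.U197.PQ.C

/-!
Homogeneous forms of the elements of the charts of projective space; the charts cover it.
-/

set_option autoImplicit false
set_option linter.unusedSectionVars false

open MvPolynomial Pool.Agent.H920R2 Pool.Agent.Y177.Tor Pool.Agent.H519R3.RS Pool.Agent.Y177.Ga

attribute [local instance] MvPolynomial.gradedAlgebra

namespace Pool.Agent.U197.PQ

section forms

variable {k : Type} [Field k] {m : ℕ} {e : ℕ} {b : Fin (m + 1) → k}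
  {γ : Fin e → Fin (m + 1) → k}

/-- The product of the linear forms of a chart. -/
noncomputable def Hp (γ : Fin e → Fin (m + 1) → k) : MvPolynomial (Fin (m + 1)) k :=
  ∏ i, ln k (m + 1) (γ i)

lemma prod_hom (t : Finset (Fin e)) :
    (∏ i ∈ t, ln k (m + 1) (γ i)).IsHomogeneous t.card := by
  have := IsHomogeneous.prod t (fun i => ln k (m + 1) (γ i)) (fun _ => 1) fun i _ => ln_hom _
  simpa using this

lemma Hp_hom : (Hp γ).IsHomogeneous e := by
  have := prod_hom (γ := γ) Finset.univ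
  rwa [Finset.card_univ, Fintype.card_fin] at this

lemma Hp_mem : Hp γ ∈ homogeneousSubmodule (Fin (m + 1)) k e :=
  (mem_homogeneousSubmodule _ _).2 Hp_hom

lemma Hp_ne (hγ : ∀ i, γ i ≠ 0) : Hp γ ≠ 0 := Finset.prod_ne_zero_iff.2 fun i _ => ln_ne (hγ i)

lemma ev_Hp : ev k m (Hp γ) = ∏ i, ee k m (γ i) := by
  unfold Hp
  rw [map_prod]
  rfl

lemma div_Hp (hγ : ∀ i, γ i ≠ 0) (i : Fin e) (s : MvPolynomial (Fin (m + 1)) k) :
    ev k m s / ee k m (γ i) =
      ev k m (s * ∏ j ∈ Finset.univ.erase i, ln k (m + 1) (γ j)) / ev k m (Hp γ) := by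
  have h1 : ev k m (Hp γ) = ee k m (γ i) *
      ev k m (∏ j ∈ Finset.univ.erase i, ln k (m + 1) (γ j)) := by
    rw [ee_apply, ← map_mul]
    congr 1
    exact (Finset.mul_prod_erase Finset.univ (fun j => ln k (m + 1) (γ j))
      (Finset.mem_univ i)).symm
  have h2 : ev k m (∏ j ∈ Finset.univ.erase i, ln k (m + 1) (γ j)) ≠ 0 :=
    ev_ne (Finset.prod_ne_zero_iff.2 fun j _ => ln_ne (hγ j))
  have h3 : ee k m (γ i) ≠ 0 := ee_ne (hγ i)
  rw [h1, map_mul]
  field_simp

lemma hom_erase (i : Fin e) (s : MvPolynomial (Fin (m + 1)) k) (hs : s.IsHomogeneous 1) :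
    (s * ∏ j ∈ Finset.univ.erase i, ln k (m + 1) (γ j)).IsHomogeneous (1 * e) := by
  have h1 := hs.mul (prod_hom (γ := γ) (Finset.univ.erase i))
  rw [Finset.card_erase_of_mem (Finset.mem_univ i), Finset.card_univ, Fintype.card_fin] at h1
  have h2 : 1 + (e - 1) = 1 * e := by
    have := i.2
    omega
  rwa [h2] at h1

lemma Bc_le (hγ : ∀ i, γ i ≠ 0) (i0 : Fin e) (hi0 : γ i0 = b) :
    Bc b γ ≤ chG (homogeneousSubmodule (Fin (m + 1)) k) (ev k m) (Hp γ) e Hp_mem
      (ev_ne (Hp_ne hγ)) := by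
  conv_lhs => rw [Bc]
  rw [Algebra.adjoin_le_iff]
  rintro _ (⟨v, rfl⟩ | ⟨i, rfl⟩)
  · refine ⟨1, ln k (m + 1) v * ∏ j ∈ Finset.univ.erase i0, ln k (m + 1) (γ j),
      (mem_homogeneousSubmodule _ _).2 (hom_erase i0 _ (ln_hom v)), ?_⟩
    rw [pow_one, ← div_Hp hγ, hi0]
    rfl
  · refine ⟨1, ln k (m + 1) b * ∏ j ∈ Finset.univ.erase i, ln k (m + 1) (γ j),
      (mem_homogeneousSubmodule _ _).2 (hom_erase i _ (ln_hom b)), ?_⟩
    rw [pow_one, ← div_Hp hγ]
    rfl

variable (b γ) in
/-- The value of a polynomial in the affine coordinates of the chart. -/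
noncomputable def psB : MvPolynomial (Fin (m + 1)) k →ₐ[k] Bc b γ :=
  aeval fun i => xb b γ (Pi.single i 1)

lemma psB_ln (v : Fin (m + 1) → k) : psB b γ (ln k (m + 1) v) = xb b γ v := by
  change psB b γ (∑ i, v i • (X i : MvPolynomial (Fin (m + 1)) k)) = _
  rw [map_sum]
  conv_rhs => rw [← sum_single v, map_sum]
  refine Finset.sum_congr rfl fun i _ => ?_
  rw [map_smul, map_smul]
  unfold psB
  rw [aeval_X]

lemma coe_psB (s : MvPolynomial (Fin (m + 1)) k) (d : ℕ) (hs : s.IsHomogeneous d) :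
    ((psB b γ s : Bc b γ) : KF k m) = ev k m s / ee k m b ^ d := by
  rw [← aeval_div s d hs]
  have h1 : (Bc b γ).val.comp (psB b γ) =
      aeval (fun i => ee k m (Pi.single i 1) / ee k m b) := by
    apply MvPolynomial.algHom_ext
    intro i
    rw [aeval_X]
    change ((psB b γ (X i) : Bc b γ) : KF k m) = _
    unfold psB
    rw [aeval_X]
    rfl
  rw [← h1]
  rfl

variable (b γ) in
/-- The unit `b ^ e / h` of the chart. -/
noncomputable def uB : Bc b γ := ∏ i, ⟨ee k m b / ee k m (γ i), y_mem i⟩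

lemma coe_uB : ((uB b γ : Bc b γ) : KF k m) = ee k m b ^ e / ev k m (Hp γ) := by
  have h1 : ((uB b γ : Bc b γ) : KF k m) = ∏ i, ee k m b / ee k m (γ i) := by
    unfold uB
    change (Bc b γ).val (∏ i, _) = _
    rw [map_prod]
    rfl
  rw [h1, Finset.prod_div_distrib, Finset.prod_const, Finset.card_univ, Fintype.card_fin, ev_Hp]

lemma coe_form (hb : b ≠ 0) (hγ : ∀ i, γ i ≠ 0) (i : ℕ) (s : MvPolynomial (Fin (m + 1)) k)
    (hs : s.IsHomogeneous (i * e)) :
    ((psB b γ s * uB b γ ^ i : Bc b γ) : KF k m) = ev k m s / ev k m (Hp γ) ^ i := by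
  change ((psB b γ s : Bc b γ) : KF k m) * ((uB b γ : Bc b γ) : KF k m) ^ i = _
  rw [coe_psB s _ hs, coe_uB]
  have h1 := ee_ne hb
  have h2 : ev k m (Hp γ) ≠ 0 := ev_ne (Hp_ne hγ)
  rw [div_pow, ← pow_mul, mul_comm e i]
  field_simp

lemma le_Bc (hb : b ≠ 0) (hγ : ∀ i, γ i ≠ 0) :
    chG (homogeneousSubmodule (Fin (m + 1)) k) (ev k m) (Hp γ) e Hp_mem
      (ev_ne (Hp_ne hγ)) ≤ Bc b γ := by
  rintro _ ⟨i, s, hs, rfl⟩
  rw [← coe_form (γ := γ) hb hγ i s ((mem_homogeneousSubmodule _ _).1 hs)]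
  exact Subtype.mem _

variable {p : ℕ} {N : Module.End k (Fin (m + 1) → k)}

/-- The elements of the chart with a numerator of weight at least `d`. -/
noncomputable def WF (p : ℕ) (N : Module.End k (Fin (m + 1) → k)) (hγ : ∀ i, γ i ≠ 0)
    (i0 : Fin e) (hi0 : γ i0 = b) (d : ℕ) : Ideal (Bc b γ) where
  carrier := {y | ∃ (i : ℕ) (s : MvPolynomial (Fin (m + 1)) k), s.IsHomogeneous (i * e) ∧
    s ∈ Fl p N d ∧ (y : KF k m) = ev k m s / ev k m (Hp γ) ^ i}
  zero_mem' := ⟨0, 0, isHomogeneous_zero _ _ _, Ideal.zero_mem _, by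
    rw [map_zero, zero_div]; rfl⟩
  add_mem' := by
    rintro y z ⟨i, s, hs, hs', hy⟩ ⟨j, t, ht, ht', hz⟩
    refine ⟨i + j, s * Hp γ ^ j + t * Hp γ ^ i, ?_, ?_, ?_⟩
    · refine IsHomogeneous.add ?_ ?_
      · have := hs.mul (Hp_hom (γ := γ).pow j)
        rwa [mul_comm e j, ← add_mul] at this
      · have := ht.mul (Hp_hom (γ := γ).pow i)
        rwa [mul_comm e i, ← add_mul, add_comm j i] at this
    · exact Ideal.add_mem _ (Ideal.mul_mem_right _ _ hs') (Ideal.mul_mem_right _ _ ht')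
    · have h2 : ev k m (Hp γ) ≠ 0 := ev_ne (Hp_ne hγ)
      change (y : KF k m) + z = _
      rw [hy, hz, map_add, map_mul, map_mul, map_pow, map_pow, pow_add]
      field_simp
  smul_mem' := by
    rintro r y ⟨i, s, hs, hs', hy⟩
    obtain ⟨j, t, ht, hr⟩ := Bc_le hγ i0 hi0 r.2
    refine ⟨j + i, t * s, ?_, Ideal.mul_mem_left _ _ hs', ?_⟩
    · rw [add_mul]
      exact ((mem_homogeneousSubmodule _ _).1 ht).mul hs
    · have h2 : ev k m (Hp γ) ≠ 0 := ev_ne (Hp_ne hγ)
      change (r : KF k m) * y = _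
      rw [hy, hr, map_mul, pow_add]
      field_simp

/-- Homogeneous forms of the elements of the filtration of a chart. -/
lemma form_Fx (hγ : ∀ i, γ i ≠ 0) (i0 : Fin e) (hi0 : γ i0 = b) (d : ℕ) (y : Bc b γ)
    (hy : y ∈ Fx (xb b γ) N d) : ∃ (i : ℕ) (s : MvPolynomial (Fin (m + 1)) k),
      s.IsHomogeneous (i * e) ∧ s ∈ Fl p N d ∧
      (y : KF k m) = ev k m s / ev k m (Hp γ) ^ i := by
  have h2 : ev k m (Hp γ) ≠ 0 := ev_ne (Hp_ne hγ)
  have key : Fx (xb b γ) N d ≤ WF p N hγ i0 hi0 d := by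
    refine Gf_le _ ?_ ?_ ?_ ?_ d
    · rw [Ideal.eq_top_iff_one]
      refine ⟨0, 1, ?_, ?_, ?_⟩
      · rw [zero_mul]
        exact isHomogeneous_one _ _
      · rw [isFilt_Fl.zero]
        trivial
      · rw [map_one, pow_zero, _root_.div_one]
        rfl
    · rintro c c' hcc y ⟨i, s, hs, hs', hy⟩
      exact ⟨i, s, hs, isFilt_Fl.anti _ _ hcc hs', hy⟩
    · intro c c'
      refine Ideal.mul_le.2 ?_
      rintro y ⟨i, s, hs, hs', hy⟩ z ⟨j, t, ht, ht', hz⟩
      refine ⟨i + j, s * t, ?_, isFilt_Fl.mul _ _ (Ideal.mul_mem_mul hs' ht'), ?_⟩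
      · rw [add_mul]
        exact hs.mul ht
      · change (y : KF k m) * z = _
        rw [hy, hz, map_mul, pow_add]
        field_simp
    · rintro _ w ⟨v, rfl⟩
      refine ⟨1, ln k (m + 1) ((N ^ w) v) * ∏ j ∈ Finset.univ.erase i0, ln k (m + 1) (γ j),
        hom_erase i0 _ (ln_hom _), Ideal.mul_mem_right _ _ (ln_mem _ _), ?_⟩
      rw [pow_one, ← div_Hp hγ, hi0]
      rfl
  exact key hy

/-- The elements with homogeneous forms of large weight. -/
lemma le_Fx (d : ℕ) (i : ℕ) (s : MvPolynomial (Fin (m + 1)) k) (hs : s ∈ Fl p N d) :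
    psB b γ s * uB b γ ^ i ∈ Fx (xb b γ) N d := by
  refine Ideal.mul_mem_right _ _ ?_
  have key : Fl p N d ≤ (Fx (xb b γ) N d).comap (psB b γ) := by
    refine Gf_le (W := fun d => (Fx (xb b γ) N d).comap (psB b γ)) _ ?_ ?_ ?_ ?_ d
    · change (Fx (xb b γ) N 0).comap (psB b γ) = ⊤
      rw [(isFilt_Fx (xb b γ)).zero, Ideal.comap_top]
    · intro c c' h
      exact Ideal.comap_mono ((isFilt_Fx (xb b γ)).anti _ _ h)
    · intro c c'
      exact (Ideal.le_comap_mul _).trans (Ideal.comap_mono ((isFilt_Fx (xb b γ)).mul _ _))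
    · intro y w h
      rcases gl_cases h with rfl | ⟨v, rfl⟩
      · exact Submodule.zero_mem ((Fx (xb b γ) N w).comap (psB b γ))
      · change psB b γ (ln k (m + 1) ((N ^ w) v)) ∈ Fx (xb b γ) N w
        rw [psB_ln]
        exact x_mem_Fx _ _ _
  exact key hs

end forms

section cover

variable {k : Type} [Field k] {m : ℕ}

/-- In a finite nonempty family of nonzero elements one divides the others in a valuation
ring. -/
lemma exists_dvd_all {L ι : Type} [Field L] [Finite ι] [Nonempty ι] (V : ValuationSubring L)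
    (y : ι → L) (hy : ∀ i, y i ≠ 0) : ∃ i0, ∀ i, y i / y i0 ∈ V := by
  obtain ⟨i0, hi0⟩ := Finite.exists_max fun i => V.valuation (y i)
  refine ⟨i0, fun i => ?_⟩
  rw [← V.valuation_le_one_iff, map_div₀]
  have h1 : V.valuation (y i0) ≠ 0 := (Valuation.ne_zero_iff _).2 (hy i0)
  exact div_le_one_of_le₀ (hi0 i) zero_le

/-- The charts of projective space cover it. -/
theorem cover_all {p : ℕ} {N : Module.End k (Fin (m + 1) → k)} (hN : N ^ p = 0) {e : ℕ}
    (V : ValuationSubring (KF k m)) (hV : ∀ c : k, algebraMap k (KF k m) c ∈ V)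
    (γ : (Fin (m + 1) → k) → Fin e → Fin (m + 1) → k)
    (hγ : ∀ (j : ℕ) (b : Fin (m + 1) → k), (N ^ (j + 1)) b = 0 → ∀ i,
      ∃ c, (N ^ j) c = 0 ∧ γ b i = b + c) :
    ∃ (j : ℕ) (hj : j < p + 1) (i : Fin (Module.finrank k (LinearMap.ker (N ^ j)))),
      ∀ x ∈ Bc ((Module.finBasis k (LinearMap.ker (N ^ j)) i : LinearMap.ker (N ^ j)) :
        Fin (m + 1) → k) (γ ((Module.finBasis k (LinearMap.ker (N ^ j)) i :
          LinearMap.ker (N ^ j)) : Fin (m + 1) → k)), x ∈ V := by
  classical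
  -- the vectors which divide all others
  let Dom : (Fin (m + 1) → k) → Prop := fun b => b ≠ 0 ∧ ∀ v, ee k m v / ee k m b ∈ V
  have hbas : ∀ (j : ℕ) (c : Fin (m + 1) → k), (N ^ j) c = 0 → c ≠ 0 →
      (∀ v, ee k m v / ee k m c ∈ V) →
      ∃ i, Dom ((Module.finBasis k (LinearMap.ker (N ^ j)) i : LinearMap.ker (N ^ j)) :
        Fin (m + 1) → k) := by
    intro j c hc hc0 hcd
    have hcm : c ∈ LinearMap.ker (N ^ j) := hc
    let B := Module.finBasis k (LinearMap.ker (N ^ j))
    have hne : Nonempty (Fin (Module.finrank k (LinearMap.ker (N ^ j)))) := by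
      rw [← not_isEmpty_iff]
      intro hemp
      have h1 : (⟨c, hcm⟩ : LinearMap.ker (N ^ j)) = 0 := by
        rw [← B.sum_repr ⟨c, hcm⟩]
        exact Finset.sum_of_isEmpty _
      exact hc0 (congrArg Subtype.val h1)
    have hB0 : ∀ i, ((B i : LinearMap.ker (N ^ j)) : Fin (m + 1) → k) ≠ 0 := fun i h =>
      B.ne_zero i (Subtype.ext h)
    obtain ⟨i0, hi0⟩ := exists_dvd_all V
      (fun i => ee k m ((B i : LinearMap.ker (N ^ j)) : Fin (m + 1) → k)) fun i => ee_ne (hB0 i)
    refine ⟨i0, hB0 i0, fun v => ?_⟩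
    have h1 : ee k m c / ee k m ((B i0 : LinearMap.ker (N ^ j)) : Fin (m + 1) → k) ∈ V := by
      have h2 : c = ∑ i, B.repr ⟨c, hcm⟩ i • ((B i : LinearMap.ker (N ^ j)) :
          Fin (m + 1) → k) := by
        have h3 := congrArg (LinearMap.ker (N ^ j)).subtype (B.sum_repr ⟨c, hcm⟩)
        rw [map_sum] at h3
        exact h3.symm
      rw [h2, map_sum, Finset.sum_div]
      refine sum_mem fun i _ => ?_
      rw [map_smul, Algebra.smul_def, mul_div_assoc]
      exact V.mul_mem _ _ (hV _) (hi0 i)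
    have h3 : ee k m v / ee k m ((B i0 : LinearMap.ker (N ^ j)) : Fin (m + 1) → k) =
        (ee k m v / ee k m c) *
          (ee k m c / ee k m ((B i0 : LinearMap.ker (N ^ j)) : Fin (m + 1) → k)) := by
      have h4 := ee_ne hc0
      field_simp
    change ee k m v / ee k m ((B i0 : LinearMap.ker (N ^ j)) : Fin (m + 1) → k) ∈ V
    rw [h3]
    exact V.mul_mem _ _ (hcd v) h1
  -- some basis vector of the whole space divides all vectors
  have hex : ∃ j, ∃ i, Dom ((Module.finBasis k (LinearMap.ker (N ^ j)) i :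
      LinearMap.ker (N ^ j)) : Fin (m + 1) → k) := by
    refine ⟨p, ?_⟩
    obtain ⟨i0, hi0⟩ := exists_dvd_all V
      (fun i : Fin (m + 1) => ee k m (Pi.single i 1)) fun i => ee_ne (by
        intro h
        have := congrFun h i
        simp at this)
    refine hbas p (Pi.single i0 1) (by rw [hN]; rfl) ?_ ?_
    · intro h
      have := congrFun h i0
      simp at this
    · intro v
      rw [← sum_single v, map_sum, Finset.sum_div]
      refine sum_mem fun i _ => ?_
      rw [map_smul, Algebra.smul_def, mul_div_assoc]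
      exact V.mul_mem _ _ (hV _) (hi0 i)
  let j := Nat.find hex
  obtain ⟨i, hi⟩ := Nat.find_spec hex
  have hjp : j ≤ p := by
    refine Nat.find_min' hex ?_
    obtain ⟨i0, hi0⟩ := exists_dvd_all V
      (fun i : Fin (m + 1) => ee k m (Pi.single i 1)) fun i => ee_ne (by
        intro h
        have := congrFun h i
        simp at this)
    refine hbas p (Pi.single i0 1) (by rw [hN]; rfl) ?_ ?_
    · intro h
      have := congrFun h i0
      simp at this
    · intro v
      rw [← sum_single v, map_sum, Finset.sum_div]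
      refine sum_mem fun i _ => ?_
      rw [map_smul, Algebra.smul_def, mul_div_assoc]
      exact V.mul_mem _ _ (hV _) (hi0 i)
  refine ⟨j, by omega, i, ?_⟩
  set b : Fin (m + 1) → k := ((Module.finBasis k (LinearMap.ker (N ^ j)) i :
    LinearMap.ker (N ^ j)) : Fin (m + 1) → k) with hb
  obtain ⟨hb0, hbd⟩ : Dom b := hi
  have hbk : (N ^ j) b = 0 := (Module.finBasis k (LinearMap.ker (N ^ j)) i).2
  have hj0 : j ≠ 0 := by
    intro h
    rw [h, pow_zero] at hbk
    exact hb0 hbk
  obtain ⟨j', hj'⟩ := Nat.exists_eq_succ_of_ne_zero hj0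
  have hle : Bc b (γ b) ≤ { V.toSubring with algebraMap_mem' := hV } := by
    conv_lhs => rw [Bc]
    rw [Algebra.adjoin_le_iff]
    rintro _ (⟨v, rfl⟩ | ⟨l, rfl⟩)
    · exact hbd v
    · have hNj : N ^ (j' + 1) = N ^ j := by rw [hj']
      obtain ⟨c, hc, hγc⟩ := hγ j' b (by rw [hNj]; exact hbk) l
      change ee k m b / ee k m (γ b l) ∈ V
      rw [hγc]
      by_contra hcon
      have hbc0 : b + c ≠ 0 := by
        intro h
        rw [h, map_zero, div_zero] at hcon
        exact hcon V.zero_mem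
      have hc0 : c ≠ 0 := by
        rintro rfl
        rw [add_zero, div_self (ee_ne hb0)] at hcon
        exact hcon V.one_mem
      -- `c` divides `b`
      have h1 : ee k m (b + c) / ee k m b ∈ V := hbd _
      have h2 : ee k m b / ee k m c ∈ V := by
        have hne1 := ee_ne (k := k) (m := m) hb0
        have hne2 := ee_ne (k := k) (m := m) hbc0
        have hne3 := ee_ne (k := k) (m := m) hc0
        have hv1 : 1 < V.valuation (ee k m b / ee k m (b + c)) := by
          rw [← not_le, V.valuation_le_one_iff]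
          exact hcon
        have hv2 : V.valuation (ee k m (b + c) / ee k m b) < 1 := by
          have h5 : ee k m (b + c) / ee k m b = (ee k m b / ee k m (b + c))⁻¹ := by
            rw [inv_div]
          rw [h5, map_inv₀]
          exact inv_lt_one_of_one_lt₀ hv1
        have h6 : ee k m c / ee k m b = ee k m (b + c) / ee k m b - 1 := by
          rw [map_add]
          field_simp
          ring
        have hv3 : V.valuation (ee k m c / ee k m b) = 1 := by
          rw [h6]
          have h7 : V.valuation (1 : KF k m) = 1 := map_one _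
          rw [Valuation.map_sub_eq_of_lt_right]
          · exact h7
          · rw [h7]; exact hv2
        rw [← V.valuation_le_one_iff, ← inv_div, map_inv₀, hv3, inv_one]
      have h3 : ∀ v, ee k m v / ee k m c ∈ V := by
        intro v
        have h4 : ee k m v / ee k m c = (ee k m v / ee k m b) * (ee k m b / ee k m c) := by
          have := ee_ne (k := k) (m := m) hb0
          field_simp
        rw [h4]
        exact V.mul_mem _ _ (hbd v) h2
      exact Nat.find_min hex (show j' < j by omega) (hbas j' c hc hc0 h3)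
  intro x hx
  exact hle hx

end cover

end Pool.Agent.U197.PQ
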