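import Pool.Agent.U197.PQ.D4
import Pool.Agent.U197.PQ.A
import Pool.Agent.U197.PQ.B

/-!
The resolution of `Proj` of a ring of invariants of a polynomial ring.
-/

set_option autoImplicit false
set_option linter.unusedSectionVars false

open AlgebraicGeometry CategoryTheory
open MvPolynomial Pool.Agent.H920R2 Pool.Agent.Y177.Tor Pool.Agent.H519R3.RS Pool.Agent.Y177.Ga
open Pool.Agent.N98.PJ

attribute [local instance] MvPolynomial.gradedAlgebra

namespace Pool.Agent.U197.PQ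

section graded

variable {k : Type} [Field k] {m : ℕ} (C : Subalgebra k (MvPolynomial (Fin (m + 1)) k))

/-- The homogeneous elements of degree `d` of a subalgebra of a polynomial ring. -/
noncomputable def piece (d : ℕ) : Submodule k C :=
  (homogeneousSubmodule (Fin (m + 1)) k d).comap C.val.toLinearMap

lemma mem_piece {d : ℕ} {f : C} :
    f ∈ piece C d ↔ (f : MvPolynomial (Fin (m + 1)) k).IsHomogeneous d := Iff.rfl

lemma hc_coe (d : ℕ) (x : DirectSum ℕ fun i => piece C i) :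
    homogeneousComponent d ((DirectSum.coeLinearMap (piece C) x : C) :
      MvPolynomial (Fin (m + 1)) k) = ((x d : C) : MvPolynomial (Fin (m + 1)) k) := by
  classical
  have h1 : (homogeneousComponent d).comp (C.val.toLinearMap.comp
      (DirectSum.coeLinearMap (piece C))) = (C.val.toLinearMap.comp ((piece C d).subtype.comp
        (DirectSum.component k ℕ (fun i => piece C i) d))) := by
    apply DirectSum.linearMap_ext
    intro i
    ext1 y
    change homogeneousComponent d ((DirectSum.coeLinearMap (piece C)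
      (DirectSum.lof k ℕ (fun i => piece C i) i y) : C) : MvPolynomial (Fin (m + 1)) k) =
      (((DirectSum.lof k ℕ (fun i => piece C i) i y) d : C) : MvPolynomial (Fin (m + 1)) k)
    rw [DirectSum.coeLinearMap_lof]
    have hy : ((y : C) : MvPolynomial (Fin (m + 1)) k).IsHomogeneous i := y.2
    by_cases h : i = d
    · subst h
      rw [DirectSum.lof_eq_of, DirectSum.of_eq_same,
        homogeneousComponent_of_mem ((mem_homogeneousSubmodule _ _).2 hy), if_pos rfl]
    · rw [DirectSum.lof_eq_of, DirectSum.of_eq_of_ne _ _ _ (Ne.symm h),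
        homogeneousComponent_of_mem ((mem_homogeneousSubmodule _ _).2 hy), if_neg (Ne.symm h)]
      rfl
  exact congrArg (fun f => f x) h1

lemma coe_inj : Function.Injective (DirectSum.coeLinearMap (piece C)) := by
  classical
  intro x y hxy
  refine DFinsupp.ext fun d => ?_
  apply Subtype.ext
  apply Subtype.ext
  rw [← hc_coe, ← hc_coe, hxy]

/-- The decomposition into homogeneous components. -/
noncomputable def dec (hC : ∀ f ∈ C, ∀ d, homogeneousComponent d f ∈ C) (f : C) :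
    DirectSum ℕ fun i => piece C i :=
  ∑ d ∈ Finset.range ((f : MvPolynomial (Fin (m + 1)) k).totalDegree + 1),
    DirectSum.lof k ℕ (fun i => piece C i) d
      ⟨⟨homogeneousComponent d (f : MvPolynomial (Fin (m + 1)) k), hC _ f.2 d⟩,
        homogeneousComponent_isHomogeneous d _⟩

lemma coe_dec (hC : ∀ f ∈ C, ∀ d, homogeneousComponent d f ∈ C) (f : C) :
    DirectSum.coeLinearMap (piece C) (dec C hC f) = f := by
  unfold dec
  rw [map_sum]
  apply Subtype.ext
  have h1 : ∀ s : Finset ℕ, ((∑ d ∈ s, DirectSum.coeLinearMap (piece C)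
      (DirectSum.lof k ℕ (fun i => piece C i) d
        ⟨⟨homogeneousComponent d (f : MvPolynomial (Fin (m + 1)) k), hC _ f.2 d⟩,
          homogeneousComponent_isHomogeneous d _⟩) : C) : MvPolynomial (Fin (m + 1)) k) =
      ∑ d ∈ s, homogeneousComponent d (f : MvPolynomial (Fin (m + 1)) k) := by
    intro s
    change C.val (∑ d ∈ s, _) = _
    rw [map_sum]
    refine Finset.sum_congr rfl fun d _ => ?_
    rw [DirectSum.coeLinearMap_lof]
    rfl
  rw [h1]
  exact sum_homogeneousComponent _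

/-- The grading of a subalgebra which contains the homogeneous components of its elements. -/
@[instance_reducible]
noncomputable def grd (hC : ∀ f ∈ C, ∀ d, homogeneousComponent d f ∈ C) :
    GradedAlgebra (piece C) where
  one_mem := isHomogeneous_one _ _
  mul_mem := fun {i j} _ _ ha hb => IsHomogeneous.mul ha hb
  decompose' := dec C hC
  left_inv := fun f => coe_dec C hC f
  right_inv := fun x => coe_inj C (coe_dec C hC _)

end graded

section asm

variable {k : Type} [Field k] {m : ℕ}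

variable (k m) in
/-- The field of rational functions of degree zero. -/
noncomputable def L0 : IntermediateField k (KF k m) where
  carrier := {z | ∃ (d : ℕ) (s t : MvPolynomial (Fin (m + 1)) k), s.IsHomogeneous d ∧
    t.IsHomogeneous d ∧ t ≠ 0 ∧ z = ev k m s / ev k m t}
  mul_mem' := by
    rintro x y ⟨d, s, t, hs, ht, ht0, rfl⟩ ⟨d', s', t', hs', ht', ht0', rfl⟩
    exact ⟨d + d', s * s', t * t', hs.mul hs', ht.mul ht', mul_ne_zero ht0 ht0', by
      rw [map_mul, map_mul, div_mul_div_comm]⟩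
  add_mem' := by
    rintro x y ⟨d, s, t, hs, ht, ht0, rfl⟩ ⟨d', s', t', hs', ht', ht0', rfl⟩
    refine ⟨d + d', s * t' + t * s', t * t', (hs.mul ht').add (ht.mul hs'), ht.mul ht',
      mul_ne_zero ht0 ht0', ?_⟩
    rw [map_mul, map_add, map_mul, map_mul, div_add_div _ _ (ev_ne ht0) (ev_ne ht0')]
  algebraMap_mem' r := ⟨0, C r, 1, isHomogeneous_C _ _, isHomogeneous_one _ _, one_ne_zero, by
    rw [map_one, _root_.div_one]
    exact ((ev k m).commutes r).symm⟩
  inv_mem' := by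
    rintro x ⟨d, s, t, hs, ht, ht0, rfl⟩
    by_cases hs0 : s = 0
    · subst hs0
      rw [map_zero, zero_div, inv_zero]
      exact ⟨0, 0, 1, isHomogeneous_zero _ _ _, isHomogeneous_one _ _, one_ne_zero, by
        rw [map_zero, zero_div]⟩
    · exact ⟨d, t, s, ht, hs, hs0, by rw [inv_div]⟩

/-- **Resolution of the quotients of projective space**, general form. -/
theorem resolution_main {p : ℕ} (hp : p.Prime) (hpk : (p : k) = 0)
    {N : Module.End k (Fin (m + 1) → k)} (hN : N ^ p = 0) {e : ℕ}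
    (γ : (Fin (m + 1) → k) → Fin e → Fin (m + 1) → k)
    (hγ0 : ∀ b, b ≠ 0 → ∀ i, γ b i ≠ 0) (i0 : Fin e) (hi0 : ∀ b, γ b i0 = b)
    (hγc : ∀ (j : ℕ) (b : Fin (m + 1) → k), (N ^ (j + 1)) b = 0 → ∀ i,
      ∃ c, (N ^ j) c = 0 ∧ γ b i = b + c)
    (C : Subalgebra k (MvPolynomial (Fin (m + 1)) k)) [GradedAlgebra (piece C)]
    (Kf : IntermediateField k (KF k m)) (hKf : ∀ s, ev k m s ∈ Kf ↔ s ∈ C)
    (hH : ∀ b, b ≠ 0 → Hp (γ b) ∈ C)
    (hden : ∀ (d : ℕ) (t : MvPolynomial (Fin (m + 1)) k), t.IsHomogeneous d → t ≠ 0 →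
      ∃ (d' : ℕ) (w : MvPolynomial (Fin (m + 1)) k), w.IsHomogeneous d' ∧ t * w ∈ C ∧ w ≠ 0)
    (hgood : ∀ b, b ≠ 0 →
      Good k (isFilt_restr (isFilt_Fx (N := N) (xb b (γ b)))
        (Kf.toSubalgebra.comap (Bc b (γ b)).val)) ∧
      restr (Fx (xb b (γ b)) N) (Kf.toSubalgebra.comap (Bc b (γ b)).val) 1 ≠ ⊥) :
    ∃ (Y : Scheme.{0}) (π : Y ⟶ Proj (piece C)), AlgebraicGeometry.IsIntegral Y ∧ IsProper π ∧
      AlgebraicGeometry.Smooth (π ≫ str (piece C)) ∧
      ∃ U : (Proj (piece C)).Opens, (U : Set (Proj (piece C))).Nonempty ∧ IsIso (π ∣_ U) := by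
  classical
  let 𝒜 : Type := Σ j : Fin (p + 1), Fin (Module.finrank k (LinearMap.ker (N ^ (j : ℕ))))
  let β : 𝒜 → Fin (m + 1) → k := fun a =>
    ((Module.finBasis k (LinearMap.ker (N ^ (a.1 : ℕ))) a.2 :
      LinearMap.ker (N ^ (a.1 : ℕ))) : Fin (m + 1) → k)
  have hβ0 : ∀ a, β a ≠ 0 := fun a h =>
    (Module.finBasis k (LinearMap.ker (N ^ (a.1 : ℕ)))).ne_zero a.2 (Subtype.ext h)
  have hcv : ∀ V : ValuationSubring (KF k m), (∀ c : k, algebraMap k (KF k m) c ∈ V) →
      ∃ a : 𝒜, ∀ x ∈ Bc (β a) (γ (β a)), x ∈ V := by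
    intro V hV
    obtain ⟨j, hj, i, h⟩ := cover_all hN V hV γ hγc
    exact ⟨⟨⟨j, hj⟩, i⟩, h⟩
  obtain ⟨a0, -⟩ := hcv ⊤ fun _ => trivial
  let M : IntermediateField k (KF k m) := L0 k m ⊓ Kf
  let B : 𝒜 → Subalgebra k (KF k m) := fun a => Bc (β a) (γ (β a))
  let h : 𝒜 → KF k m := fun a => ev k m (Hp (γ (β a))) / ev k m (Hp (γ (β a0)))
  let F : ∀ a, ℕ → Ideal (B a) := fun a => Fx (xb (β a) (γ (β a))) N
  have hHne : ∀ a, ev k m (Hp (γ (β a))) ≠ 0 := fun a => ev_ne (Hp_ne (hγ0 _ (hβ0 a)))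
  have hh0 : ∀ a, h a ≠ 0 := fun a => div_ne_zero (hHne a) (hHne a0)
  have hratio : ∀ a b, h b / h a = ev k m (Hp (γ (β b))) / ev k m (Hp (γ (β a))) := by
    intro a b
    change ev k m (Hp (γ (β b))) / ev k m (Hp (γ (β a0))) /
      (ev k m (Hp (γ (β a))) / ev k m (Hp (γ (β a0)))) = _
    have h1 := hHne a
    have h2 := hHne a0
    field_simp
  have hBL : ∀ a, ∀ x ∈ B a, x ∈ L0 k m := by
    intro a x hx
    obtain ⟨i, s, hs, hxs⟩ := Bc_le (hγ0 _ (hβ0 a)) i0 (hi0 (β a)) hx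
    refine ⟨i * e, s, Hp (γ (β a)) ^ i, (mem_homogeneousSubmodule _ _).1 hs, ?_,
      pow_ne_zero _ (Hp_ne (hγ0 _ (hβ0 a))), by rw [hxs, map_pow]⟩
    have := (Hp_hom (γ := γ (β a))).pow i
    rwa [mul_comm] at this
  have hC : ∀ a (x : B a), x ∈ Kf.toSubalgebra.comap (B a).val ↔ (x : KF k m) ∈ M :=
    fun a x => ⟨fun hx => ⟨hBL a _ x.2, hx⟩, fun hx => hx.2⟩
  have hMh : ∀ a, h a ∈ M := fun a =>
    ⟨⟨e, _, _, Hp_hom, Hp_hom, Hp_ne (hγ0 _ (hβ0 a0)), rfl⟩,
      Kf.div_mem ((hKf _).2 (hH _ (hβ0 a))) ((hKf _).2 (hH _ (hβ0 a0)))⟩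
  have hX : Chs B (fun a b => h b / h a) F :=
    { mem := fun a b => by
        rw [hratio]
        refine le_Bc (hβ0 a) (hγ0 _ (hβ0 a)) ⟨1, Hp (γ (β b)), ?_, by rw [pow_one]⟩
        rw [one_mul]
        exact Hp_mem
      glue := by
        intro a b d f hf
        obtain ⟨i, s, hs, hs', hfs⟩ := form_Fx (p := p) (hγ0 _ (hβ0 b)) i0 (hi0 (β b)) d f hf
        refine ⟨i, _, le_Fx (b := β a) (γ := γ (β a)) d i s hs', ?_⟩
        rw [coe_form (hβ0 a) (hγ0 _ (hβ0 a)) i s hs, hratio, hfs]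
        have h1 := hHne a
        have h2 := hHne b
        rw [div_pow]
        field_simp
      proper := hcv }
  obtain ⟨W, hW, I, hI, z, J, hmod⟩ := model_of_chs' hp hpk hX hh0
    (fun a => isFilt_Fx (N := N) (xb (β a) (γ (β a)))) M hMh
    (fun a => Kf.toSubalgebra.comap (B a).val) (fun a => hgood _ (hβ0 a)) hC
  obtain ⟨P, hP1, hP2⟩ := exists_spmG M hmod
  have hev : ∀ n, ∀ s ∈ piece C n, (ev k m).comp C.val s = 0 → s = 0 := by
    intro n s _ h0
    apply Subtype.ext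
    exact ev_inj (h0.trans (map_zero _).symm)
  have hint := P.int
  obtain ⟨π, hπ1, hπ2, hπ3⟩ := exists_resG (piece C) ((ev k m).comp C.val) M hev P hP2 (by
    intro j
    obtain ⟨a, ha⟩ := hP1 j
    have hf : (⟨Hp (γ (β a)), hH _ (hβ0 a)⟩ : C) ∈ piece C e := Hp_hom
    have he : 0 < e := i0.pos
    refine ⟨e, ⟨Hp (γ (β a)), hH _ (hβ0 a)⟩, hf, hHne a, he, ?_, ?_⟩
    · rintro _ ⟨i, s, hs, rfl⟩
      refine ha _ (hW a _ ?_ ⟨?_, ?_⟩)
      · exact le_Bc (hβ0 a) (hγ0 _ (hβ0 a)) ⟨i, s, (mem_homogeneousSubmodule _ _).2 hs, rfl⟩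
      · refine ⟨i * e, s, Hp (γ (β a)) ^ i, hs, ?_, pow_ne_zero _ (Hp_ne (hγ0 _ (hβ0 a))), ?_⟩
        · have := (Hp_hom (γ := γ (β a))).pow i
          rwa [mul_comm] at this
        · rw [map_pow]
          rfl
      · exact Kf.div_mem ((hKf _).2 s.2) (pow_mem ((hKf _).2 (hH _ (hβ0 a))) i)
    · rintro x ⟨⟨d, s, t, hs, ht, ht0, rfl⟩, hxK⟩
      obtain ⟨d', w, hw, htw, hw0⟩ := hden d t ht ht0
      let T : MvPolynomial (Fin (m + 1)) k := (t * w) ^ e
      have htw0 : t * w ≠ 0 := mul_ne_zero ht0 hw0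
      have hT0 : T ≠ 0 := pow_ne_zero _ htw0
      have hTC : T ∈ C := pow_mem htw e
      have hTh : T.IsHomogeneous ((d + d') * e) := (ht.mul hw).pow e
      obtain ⟨e', he'⟩ : ∃ e', e = e' + 1 := ⟨e - 1, by omega⟩
      let S : MvPolynomial (Fin (m + 1)) k := s * w * (t * w) ^ e'
      have hSh : S.IsHomogeneous ((d + d') * e) := by
        have h1 := (hs.mul hw).mul ((ht.mul hw).pow e')
        have h2 : d + d' + (d + d') * e' = (d + d') * e := by rw [he']; ring
        rwa [h2] at h1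
      have hST : ev k m S = (ev k m s / ev k m t) * ev k m T := by
        have h1 : t * S = s * T := by
          change t * (s * w * (t * w) ^ e') = s * (t * w) ^ e
          rw [he', pow_succ]
          ring
        have h2 := ev_ne (k := k) (m := m) ht0
        have h3 : ev k m t * ev k m S = ev k m s * ev k m T := by
          rw [← map_mul, ← map_mul, h1]
        rw [div_mul_eq_mul_div, ← h3]
        field_simp
      have hSC : S ∈ C := by
        rw [← hKf, hST]
        exact Kf.mul_mem hxK ((hKf _).2 hTC)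
      have hHi : ev k m (Hp (γ (β a))) ^ (d + d') ≠ 0 := pow_ne_zero _ (hHne a)
      refine ⟨_, ⟨d + d', ⟨S, hSC⟩, hSh, rfl⟩, _, ⟨d + d', ⟨T, hTC⟩, hTh, rfl⟩, ?_, ?_⟩
      · exact div_ne_zero (ev_ne hT0) hHi
      · change ev k m s / ev k m t = (ev k m S / ev k m (Hp (γ (β a))) ^ (d + d')) /
          (ev k m T / ev k m (Hp (γ (β a))) ^ (d + d'))
        rw [hST]
        have h4 := ev_ne (k := k) (m := m) hT0
        field_simp)
  exact ⟨P.Y, π, hint, hπ1, hπ2, hπ3⟩

end asm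

end Pool.Agent.U197.PQ
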