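import Pool.Agent.U197.PQ.D5
import Pool.Agent.H920R2.Cw6

/-!
The quotients of projective space by unipotent automorphisms of order `p`.
-/

set_option autoImplicit false
set_option linter.unusedSectionVars false

open AlgebraicGeometry CategoryTheory
open MvPolynomial Pool.Agent.H920R2 Pool.Agent.Y177.Tor Pool.Agent.H519R3.RS Pool.Agent.Y177.Ga
open Pool.Agent.N98.PJ

attribute [local instance] MvPolynomial.gradedAlgebra

namespace Pool.Agent.U197.PQ

section inv

variable {k B : Type} [Field k] [CommRing B] [IsDomain B] [Algebra k B]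

/-- The filtration of the ring of invariants. -/
lemma good_inv_sig {p : ℕ} (hp : p.Prime) (hpk : (p : k) = 0) (σ : B ≃ₐ[k] B)
    (hσ : ∀ b, σ^[p] b = b) {F : ℕ → Ideal B} (hF : IsFilt F) (hG : Good k hF) (hne : F 1 ≠ ⊥)
    (hdiv : ∀ d, ∀ a ∈ F d, σ a - a ∈ F (d + 1))
    (hfix : ∀ P : Ideal B, P.IsPrime → (∀ a, σ a - a ∈ P) → F 1 ≤ P)
    (hlead : ∀ d, 1 ≤ d → ∀ a ∈ F d, ∃ N : ℕ, a ^ N ∈ leadI (fun c => σ c - c) F 1 (N * d))
    (C : Subalgebra k B) (hC : ∀ b, b ∈ C ↔ σ b = b) :
    Good k (isFilt_restr hF C) ∧ restr F C 1 ≠ ⊥ := by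
  refine ⟨good_fix hp hpk σ hσ hF hG one_pos hdiv hfix hlead C.val Subtype.val_injective
    (fun c => ⟨fun h => ⟨⟨c, (hC c).2 h⟩, rfl⟩, ?_⟩) _ fun d c' => Iff.rfl, ?_⟩
  · rintro ⟨c', rfl⟩
    exact (hC _).1 c'.2
  · obtain ⟨a, ha, ha0⟩ := Submodule.exists_mem_ne_zero_of_ne_bot hne
    have hnF : H920R2.nrm σ p a ∈ F 1 := by
      obtain ⟨m, rfl⟩ : ∃ m, p = m + 1 := ⟨p - 1, by have := hp.pos; omega⟩
      rw [nrm_succ']
      exact Ideal.mul_mem_left _ _ ha
    have hn0 : H920R2.nrm σ p a ≠ 0 := by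
      unfold H920R2.nrm
      rw [Finset.prod_ne_zero_iff]
      intro i _ h6
      have h7 : ∀ (i : ℕ) (x : B), σ^[i] x = 0 → x = 0 := by
        intro i
        induction i with
        | zero => intro x hx; exact hx
        | succ i ih =>
          intro x hx
          rw [Function.iterate_succ_apply] at hx
          exact (map_eq_zero_iff σ σ.injective).1 (ih _ hx)
      exact ha0 (h7 i a h6)
    have hmem : H920R2.nrm σ p a ∈ C := (hC _).2 (map_nrm σ p hσ a)
    intro hbot
    have h6 : (⟨H920R2.nrm σ p a, hmem⟩ : C) ∈ restr F C 1 := hnF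
    rw [hbot, Ideal.mem_bot] at h6
    exact hn0 (congrArg Subtype.val h6)

end inv

section sig

variable {k : Type} [Field k] {m : ℕ} {p : ℕ} [hp : Fact p.Prime] [CharP k p]
  {N : Module.End k (Fin (m + 1) → k)}

variable (N) in
/-- The translates of a vector by the powers of the unipotent automorphism. -/
def gam (p : ℕ) (b : Fin (m + 1) → k) (i : Fin p) : Fin (m + 1) → k := ((1 + N) ^ (i : ℕ)) b

lemma one_add_pow (hN : N ^ p = 0) : (1 + N) ^ p = 1 := by
  have _ : CharP (Module.End k (Fin (m + 1) → k)) p :=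
    charP_of_injective_algebraMap (algebraMap k (Module.End k (Fin (m + 1) → k))).injective p
  rw [add_pow_char_of_commute p (Commute.one_left N), one_pow, hN, add_zero]

lemma pow_ne (hN : N ^ p = 0) (b : Fin (m + 1) → k) (hb : b ≠ 0) (i : ℕ) :
    ((1 + N) ^ i) b ≠ 0 := by
  intro h
  apply hb
  have h1 : ((1 + N) ^ (p * i)) b = b := by rw [pow_mul, one_add_pow hN, one_pow]; rfl
  have hp0 := hp.out.pos
  have h2 : p * i = (p * i - i) + i := by
    have : i ≤ p * i := Nat.le_mul_of_pos_left i hp0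
    omega
  rw [h2, pow_add, Module.End.mul_apply, h, map_zero] at h1
  exact h1.symm

lemma gam_ne (hN : N ^ p = 0) (b : Fin (m + 1) → k) (hb : b ≠ 0) (i : Fin p) :
    gam N p b i ≠ 0 := pow_ne hN b hb i

lemma gam_c (j : ℕ) (b : Fin (m + 1) → k) (hb : (N ^ (j + 1)) b = 0) (i : Fin p) :
    ∃ c, (N ^ j) c = 0 ∧ gam N p b i = b + c := by
  have key : ∀ i : ℕ, ∃ c, (N ^ j) c = 0 ∧ ((1 + N) ^ i) b = b + c := by
    intro i
    induction i with
    | zero => exact ⟨0, map_zero _, by rw [pow_zero, add_zero]; rfl⟩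
    | succ i ih =>
      obtain ⟨c, hc, hi⟩ := ih
      refine ⟨c + N (b + c), ?_, ?_⟩
      · rw [map_add, hc, zero_add, map_add, map_add]
        have h1 : (N ^ j) (N b) = (N ^ (j + 1)) b := by rw [pow_succ]; rfl
        have h2 : (N ^ j) (N c) = N ((N ^ j) c) := by
          rw [← Module.End.mul_apply, ← Module.End.mul_apply, (Commute.refl N).pow_left j]
        rw [h1, h2, hb, hc, map_zero, add_zero]
      · rw [pow_succ', Module.End.mul_apply, hi, LinearMap.add_apply, Module.End.one_apply]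
        abel
  exact key i

variable {σ : MvPolynomial (Fin (m + 1)) k ≃ₐ[k] MvPolynomial (Fin (m + 1)) k}
  (hσ : ∀ v, σ (ln k (m + 1) v) = ln k (m + 1) (v + N v)) (hN : N ^ p = 0)

variable (σ) in
/-- The automorphism of the field of rational functions. -/
noncomputable def tau : KF k m ≃ₐ[k] KF k m :=
  IsFractionRing.fieldEquivOfAlgEquiv k (KF k m) (KF k m) σ

lemma tau_ev (s : MvPolynomial (Fin (m + 1)) k) : tau σ (ev k m s) = ev k m (σ s) :=
  IsFractionRing.fieldEquivOfAlgEquiv_algebraMap k (KF k m) (KF k m) σ s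

include hσ in
lemma tau_ee (v : Fin (m + 1) → k) : tau σ (ee k m v) = ee k m ((1 + N) v) := by
  rw [ee_apply, tau_ev, hσ]
  rfl

include hσ in
lemma tau_ee_iter (v : Fin (m + 1) → k) (i : ℕ) : tau σ (ee k m (((1 + N) ^ i) v)) =
    ee k m (((1 + N) ^ (i + 1)) v) := by
  rw [tau_ee hσ, pow_succ' _ i]
  rfl

lemma tau_iter (hσp : ∀ s, σ^[p] s = s) (x : KF k m) : (tau σ)^[p] x = x := by
  have h1 : ∀ (n : ℕ) (s : MvPolynomial (Fin (m + 1)) k),
      (tau σ)^[n] (ev k m s) = ev k m (σ^[n] s) := by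
    intro n
    induction n with
    | zero => intro s; rfl
    | succ n ih =>
      intro s
      rw [Function.iterate_succ_apply, tau_ev, ih, Function.iterate_succ_apply]
  have h2 : ∀ (n : ℕ) (x y : KF k m), (tau σ)^[n] (x / y) = (tau σ)^[n] x / (tau σ)^[n] y := by
    intro n
    induction n with
    | zero => intro x y; rfl
    | succ n ih =>
      intro x y
      rw [Function.iterate_succ_apply, map_div₀, ih, Function.iterate_succ_apply,
        Function.iterate_succ_apply]
  obtain ⟨s, t, -, rfl⟩ := IsFractionRing.div_surjective (MvPolynomial (Fin (m + 1)) k) x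
  change (tau σ)^[p] (ev k m s / ev k m t) = ev k m s / ev k m t
  rw [h2, h1, h1, hσp, hσp]

variable (b : Fin (m + 1) → k)

include hN in
lemma y_mem_pow (n : ℕ) : ee k m b / ee k m (((1 + N) ^ n) b) ∈ Bc b (gam N p b) := by
  have h1 : ((1 + N) ^ n) b = ((1 + N) ^ (n % p)) b := by
    conv_lhs => rw [← Nat.mod_add_div n p, pow_add, pow_mul, one_add_pow hN, one_pow, mul_one]
  rw [h1]
  exact y_mem (γ := gam N p b) ⟨n % p, Nat.mod_lt _ hp.out.pos⟩

include hσ hN in
lemma tau_mem (hb : b ≠ 0) (z : KF k m) (hz : z ∈ Bc b (gam N p b)) :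
    tau σ z ∈ Bc b (gam N p b) := by
  have hb0 := ee_ne (k := k) (m := m) hb
  have hb1 : ee k m ((1 + N) b) ≠ 0 := by
    have := pow_ne hN b hb 1
    rw [pow_one] at this
    exact ee_ne this
  have hy1 : ee k m b / ee k m ((1 + N) b) ∈ Bc b (gam N p b) := by
    have := y_mem_pow hN b 1
    rwa [pow_one] at this
  have hle : Bc b (gam N p b) ≤ (Bc b (gam N p b)).comap (tau σ : KF k m →ₐ[k] KF k m) := by
    conv_lhs => rw [Bc]
    rw [Algebra.adjoin_le_iff]
    rintro _ (⟨v, rfl⟩ | ⟨i, rfl⟩)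
    · change tau σ (ee k m v / ee k m b) ∈ Bc b (gam N p b)
      rw [map_div₀, tau_ee hσ, tau_ee hσ]
      have h1 : ee k m ((1 + N) v) / ee k m ((1 + N) b) =
          (ee k m ((1 + N) v) / ee k m b) * (ee k m b / ee k m ((1 + N) b)) := by
        field_simp
      rw [h1]
      exact Subalgebra.mul_mem _ (x_mem _) hy1
    · change tau σ (ee k m b / ee k m (((1 + N) ^ (i : ℕ)) b)) ∈ Bc b (gam N p b)
      rw [map_div₀, tau_ee hσ, tau_ee_iter hσ]
      have h1 : ee k m ((1 + N) b) / ee k m (((1 + N) ^ ((i : ℕ) + 1)) b) =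
          (ee k m ((1 + N) b) / ee k m b) * (ee k m b / ee k m (((1 + N) ^ ((i : ℕ) + 1)) b)) := by
        field_simp
      rw [h1]
      exact Subalgebra.mul_mem _ (x_mem _) (y_mem_pow hN b _)
  exact hle hz

include hσ hN in
lemma tau_mem_iter (hb : b ≠ 0) (z : KF k m) (hz : z ∈ Bc b (gam N p b)) (n : ℕ) :
    (tau σ)^[n] z ∈ Bc b (gam N p b) := by
  induction n with
  | zero => exact hz
  | succ n ih =>
    rw [Function.iterate_succ_apply']
    exact tau_mem hσ hN b hb _ ih

include hσ hN in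
lemma tau_symm_mem (hσp : ∀ s, σ^[p] s = s) (hb : b ≠ 0) (z : KF k m)
    (hz : z ∈ Bc b (gam N p b)) : (tau σ).symm z ∈ Bc b (gam N p b) := by
  have h1 : (tau σ).symm z = (tau σ)^[p - 1] z := by
    rw [AlgEquiv.symm_apply_eq, ← Function.iterate_succ_apply' (tau σ),
      Nat.succ_eq_add_one, Nat.sub_add_cancel hp.out.one_lt.le, tau_iter hσp]
  rw [h1]
  exact tau_mem_iter hσ hN b hb z hz _

/-- The charts of the quotient. -/
lemma good_sig (hσp : ∀ s, σ^[p] s = s) (hσ : ∀ v, σ (ln k (m + 1) v) = ln k (m + 1) (v + N v))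
    (hN : N ^ p = 0) (hN0 : N ≠ 0) (hb : b ≠ 0) (C : Subalgebra k (Bc b (gam N p b)))
    (hC : ∀ x : Bc b (gam N p b), x ∈ C ↔ tau σ x = x) :
    Good k (isFilt_restr (isFilt_Fx (N := N) (xb b (gam N p b))) C) ∧
      restr (Fx (xb b (gam N p b)) N) C 1 ≠ ⊥ := by
  have hpk : (p : k) = 0 := CharP.cast_eq_zero k p
  have hb0 := ee_ne (k := k) (m := m) hb
  have hb1 : ee k m ((1 + N) b) ≠ 0 := by
    have := pow_ne hN b hb 1
    rw [pow_one] at this
    exact ee_ne this
  have hy1 : ee k m b / ee k m ((1 + N) b) ∈ Bc b (gam N p b) := by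
    have := y_mem_pow hN b 1
    rwa [pow_one] at this
  let B := Bc b (gam N p b)
  let x := xb b (gam N p b)
  let s : B ≃ₐ[k] B := resEquiv (tau σ) B (fun z hz => tau_mem hσ hN b hb z hz)
    (fun z hz => tau_symm_mem hσ hN b hσp hb z hz)
  have hs : ∀ z : B, ((s z : B) : KF k m) = tau σ z := fun z => rfl
  have hsp : ∀ z : B, s^[p] z = z := by
    intro z
    apply Subtype.ext
    rw [coe_resEquiv_iter, tau_iter hσp]
  have _ : Algebra.Smooth k B := smooth_Bc hb (gam_ne hN b hb)
  have _ : CharP B p := charP_of_injective_algebraMap (algebraMap k B).injective p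
  have hG : Good k (isFilt_Fx (N := N) x) :=
    good_of_centre (isFilt_Fx (N := N) x) (centre_Bc hN hb (gam_ne hN b hb))
  let t : B := ⟨_, hy1⟩
  have hst : ∀ v, s (x v) - x v = t * (x (N v) - x v * x (N b)) := by
    intro v
    apply Subtype.ext
    change tau σ (ee k m v / ee k m b) - ee k m v / ee k m b =
      (ee k m b / ee k m ((1 + N) b)) * (ee k m (N v) / ee k m b -
        (ee k m v / ee k m b) * (ee k m (N b) / ee k m b))
    rw [map_div₀, tau_ee hσ, tau_ee hσ]
    have h2 : ee k m ((1 + N) v) = ee k m v + ee k m (N v) := by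
      rw [LinearMap.add_apply, map_add]
      rfl
    have h3 : ee k m ((1 + N) b) = ee k m b + ee k m (N b) := by
      rw [LinearMap.add_apply, map_add]
      rfl
    rw [h3] at hb1
    rw [h2, h3]
    field_simp
    ring
  have ht : ∀ v, x (N v) = x ((1 + N) b) * (s (x v) - x v) + x v * x (N b) := by
    intro v
    have h4 : x ((1 + N) b) * t = 1 := by
      apply Subtype.ext
      change ee k m ((1 + N) b) / ee k m b * (ee k m b / ee k m ((1 + N) b)) = 1
      field_simp
    rw [hst, ← mul_assoc, h4, one_mul]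
    ring
  have hxb : x b = 1 := xb_b hb
  refine good_inv_sig hp.out hpk s hsp (isFilt_Fx (N := N) x) hG ?_ ?_ ?_ ?_ C ?_
  · intro hbot
    apply hN0
    apply LinearMap.ext
    intro v
    by_contra hv
    have h1 : x (N v) ∈ Fx x N 1 := by
      have := x_mem_Fx (N := N) x 1 v
      rwa [pow_one] at this
    rw [hbot, Ideal.mem_bot] at h1
    have h2 : ee k m (N v) / ee k m b = 0 := congrArg Subtype.val h1
    rcases div_eq_zero_iff.1 h2 with h3 | h3
    · exact ee_ne (k := k) (m := m) hv h3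
    · exact hb0 h3
  · intro d a ha
    exact raise_sig x b (Bc_gen hb (gam_ne hN b hb)) s t hst d a ha
  · intro P hP h
    exact fix_x x b (fun c => s c - c) _ ht hxb hN P hP h
  · intro d hd a ha
    exact lead_x x b (fun c => s c - c) _ ht hxb hN d hd a ha
  · intro z
    rw [hC]
    exact ⟨fun h => Subtype.ext h, fun h => congrArg Subtype.val h⟩

end sig

end Pool.Agent.U197.PQ
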