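import Pool.Agent.U197.PQ.D6
import Pool.Agent.H920R2.Gl8
import Pool.Agent.H920R2.Trans

/-!
Quotients of projective space by linear automorphisms of order `p`.
-/

set_option autoImplicit false
set_option linter.unusedSectionVars false

open AlgebraicGeometry CategoryTheory
open MvPolynomial Pool.Agent.H920R2 Pool.Agent.Y177.Tor Pool.Agent.H519R3.RS Pool.Agent.Y177.Ga
open Pool.Agent.N98.PJ

attribute [local instance] MvPolynomial.gradedAlgebra

namespace Pool.Agent.U197.PQ

section lin

variable {k : Type} [Field k] {m : ℕ}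

lemma exists_ln {f : MvPolynomial (Fin (m + 1)) k} (hf : f.IsHomogeneous 1) :
    ∃ v, f = ln k (m + 1) v := by
  have h1 : f ∈ homogeneousSubmodule (Fin (m + 1)) k 1 := (mem_homogeneousSubmodule _ _).2 hf
  rw [homogeneousSubmodule_one_eq_span_X, Submodule.mem_span_range_iff_exists_fun] at h1
  obtain ⟨c, hc⟩ := h1
  exact ⟨c, hc.symm⟩

/-- A linear map which maps the variables to linear forms acts on the linear forms. -/
lemma exists_end (φ : MvPolynomial (Fin (m + 1)) k →ₗ[k] MvPolynomial (Fin (m + 1)) k)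
    (h : ∀ i, (φ (X i)).IsHomogeneous 1) :
    ∃ N : Module.End k (Fin (m + 1) → k), ∀ v, φ (ln k (m + 1) v) = ln k (m + 1) (N v) := by
  choose u hu using fun i => exists_ln (h i)
  refine ⟨(Pi.basisFun k (Fin (m + 1))).constr k u, fun v => ?_⟩
  have h1 : (Pi.basisFun k (Fin (m + 1))).constr k u v = ∑ i, v i • u i := by
    rw [Module.Basis.constr_apply_fintype]
    rfl
  rw [h1, map_sum]
  change φ (∑ i, v i • (X i : MvPolynomial (Fin (m + 1)) k)) = _
  rw [map_sum]
  refine Finset.sum_congr rfl fun i _ => ?_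
  rw [map_smul, map_smul, hu]

lemma ln_inj : Function.Injective (ln k (m + 1)) := by
  intro u v h
  by_contra hne
  exact ln_ne (sub_ne_zero.2 hne) (by rw [map_sub, h, sub_self])

/-- The homogeneous components of the image under a linear map which preserves the degree. -/
lemma hc_comm (φ : MvPolynomial (Fin (m + 1)) k →ₗ[k] MvPolynomial (Fin (m + 1)) k)
    (h : ∀ (d : ℕ) s, s.IsHomogeneous d → (φ s).IsHomogeneous d) (f : MvPolynomial (Fin (m + 1)) k)
    (d : ℕ) : homogeneousComponent d (φ f) = φ (homogeneousComponent d f) := by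
  conv_lhs => rw [← sum_homogeneousComponent f]
  rw [map_sum, map_sum]
  have h1 : ∀ i, homogeneousComponent d (φ (homogeneousComponent i f)) =
      if d = i then φ (homogeneousComponent i f) else 0 := fun i =>
    homogeneousComponent_of_mem ((mem_homogeneousSubmodule _ _).2
      (h i _ (homogeneousComponent_isHomogeneous i f)))
  rw [Finset.sum_congr rfl fun i _ => h1 i, Finset.sum_ite_eq]
  split_ifs with h2
  · rfl
  · rw [homogeneousComponent_eq_zero, map_zero]
    rw [Finset.mem_range, not_lt] at h2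
    omega

end lin

section gen

variable {k S : Type} [Field k] [CommRing S] [Algebra k S] (𝒜 : ℕ → Submodule k S)
  [GradedAlgebra 𝒜]

lemma isProper_gen [Algebra.FiniteType k S] (hbij : Function.Bijective (algebraMap k (𝒜 0))) :
    IsProper (str 𝒜) := by
  have h2 : @IsScalarTower k (𝒜 0) S Algebra.toSMul Algebra.toSMul Algebra.toSMul :=
    IsScalarTower.of_algebraMap_eq fun r => rfl
  have h3 : Algebra.FiniteType (𝒜 0) S :=
    @Algebra.FiniteType.of_restrictScalars_finiteType k (𝒜 0) S _ _ _ _ _ _ h2 inferInstance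
  have h4 : CommRingCat.ofHom (algebraMap k (𝒜 0)) =
      (RingEquiv.ofBijective (algebraMap k (𝒜 0)) hbij).toCommRingCatIso.hom :=
    rfl
  have h5 : IsIso (Spec.map (CommRingCat.ofHom (algebraMap k (𝒜 0)))) := by
    rw [h4]
    infer_instance
  unfold str
  infer_instance

end gen

section proper

variable {k : Type} [Field k] {m : ℕ} (C : Subalgebra k (MvPolynomial (Fin (m + 1)) k))
  [GradedAlgebra (piece C)]

lemma zero_bij : Function.Bijective (algebraMap k (piece C 0)) := by
  constructor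
  · intro a b hab
    have h1 : ((algebraMap k (piece C 0) a : C) : MvPolynomial (Fin (m + 1)) k) =
        ((algebraMap k (piece C 0) b : C) : MvPolynomial (Fin (m + 1)) k) := by rw [hab]
    exact C_injective (Fin (m + 1)) k h1
  · rintro ⟨f, hf⟩
    have h1 : (f : MvPolynomial (Fin (m + 1)) k).IsHomogeneous 0 := hf
    rw [← totalDegree_zero_iff_isHomogeneous, totalDegree_eq_zero_iff_eq_C] at h1
    refine ⟨coeff 0 (f : MvPolynomial (Fin (m + 1)) k), Subtype.ext (Subtype.ext ?_)⟩
    exact h1.symm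

lemma isProper_str [Algebra.FiniteType k C] : IsProper (str (piece C)) :=
  isProper_gen (piece C) (zero_bij C)

/-- The quotient is a projective variety with a resolution of singularities. -/
def Rsv : Prop :=
  AlgebraicGeometry.IsIntegral (Proj (piece C)) ∧ IsProper (str (piece C)) ∧
  ∃ (Y : Scheme.{0}) (π : Y ⟶ Proj (piece C)), AlgebraicGeometry.IsIntegral Y ∧ IsProper π ∧
    AlgebraicGeometry.Smooth (π ≫ str (piece C)) ∧
    ∃ U : (Proj (piece C)).Opens, Dense (U : Set (Proj (piece C))) ∧ IsIso (π ∣_ U)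

lemma rsv_of [Algebra.FiniteType k C] {e : ℕ} (he : e ≠ 0) (a : C) (ha : a ∈ piece C e)
    (ha0 : a ≠ 0)
    (h : ∃ (Y : Scheme.{0}) (π : Y ⟶ Proj (piece C)), AlgebraicGeometry.IsIntegral Y ∧
      IsProper π ∧ AlgebraicGeometry.Smooth (π ≫ str (piece C)) ∧
      ∃ U : (Proj (piece C)).Opens, (U : Set (Proj (piece C))).Nonempty ∧ IsIso (π ∣_ U)) :
    Rsv C := by
  have hint : AlgebraicGeometry.IsIntegral (Proj (piece C)) := proj_integral (piece C) he a ha ha0
  refine ⟨hint, isProper_str C, ?_⟩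
  obtain ⟨Y, π, h1, h2, h3, U, hU, h4⟩ := h
  exact ⟨Y, π, h1, h2, h3, U, U.isOpen.dense hU, h4⟩

end proper

section sig

variable {k : Type} [Field k] {m : ℕ} {p : ℕ} [hp : Fact p.Prime] [CharP k p]
  (σ : MvPolynomial (Fin (m + 1)) k ≃ₐ[k] MvPolynomial (Fin (m + 1)) k)

lemma sig_hom (hlin : ∀ i, (σ (X i)).IsHomogeneous 1) (d : ℕ) (s : MvPolynomial (Fin (m + 1)) k)
    (hs : s.IsHomogeneous d) : (σ s).IsHomogeneous d := by
  have h1 : (σ : MvPolynomial (Fin (m + 1)) k →ₐ[k] MvPolynomial (Fin (m + 1)) k) =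
      aeval fun i => σ (X i) := by
    apply MvPolynomial.algHom_ext
    intro i
    rw [aeval_X]
    rfl
  have h2 : σ s = aeval (fun i => σ (X i)) s := by
    rw [← h1]
    rfl
  rw [h2]
  have := hs.aeval (fun i => σ (X i)) hlin
  rwa [one_mul] at this

lemma exists_N (hlin : ∀ i, (σ (X i)).IsHomogeneous 1) (hσp : ∀ s, σ^[p] s = s)
    (hσ1 : ∃ s, σ s ≠ s) : ∃ N : Module.End k (Fin (m + 1) → k),
      (∀ v, σ (ln k (m + 1) v) = ln k (m + 1) (v + N v)) ∧ N ^ p = 0 ∧ N ≠ 0 := by
  obtain ⟨M, hM⟩ := exists_end σ.toLinearMap hlin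
  have hM' : ∀ v, σ (ln k (m + 1) v) = ln k (m + 1) (M v) := hM
  have hMN : M = 1 + (M - 1) := by abel
  have hit : ∀ (n : ℕ) (v : Fin (m + 1) → k),
      σ^[n] (ln k (m + 1) v) = ln k (m + 1) ((M ^ n) v) := by
    intro n
    induction n with
    | zero => intro v; rfl
    | succ n ih =>
      intro v
      rw [Function.iterate_succ_apply, hM', ih, pow_succ]
      rfl
  have hMp : M ^ p = 1 := by
    apply LinearMap.ext
    intro v
    apply ln_inj
    rw [← hit, hσp]
    rfl
  refine ⟨M - 1, fun v => ?_, ?_, ?_⟩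
  · rw [hM']
    congr 1
    change M v = v + (M v - v)
    abel
  · have _ : CharP (Module.End k (Fin (m + 1) → k)) p :=
      charP_of_injective_algebraMap (algebraMap k (Module.End k (Fin (m + 1) → k))).injective p
    have h1 : M ^ p = 1 + (M - 1) ^ p := by
      conv_lhs => rw [hMN]
      rw [add_pow_char_of_commute p (Commute.one_left (M - 1)), one_pow]
    rw [hMp] at h1
    exact (left_eq_add.1 h1)
  · intro h0
    obtain ⟨s, hs⟩ := hσ1
    apply hs
    have h1 : (σ : MvPolynomial (Fin (m + 1)) k →ₐ[k] MvPolynomial (Fin (m + 1)) k) =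
        AlgHom.id k _ := by
      apply MvPolynomial.algHom_ext
      intro i
      change σ (X i) = X i
      rw [← ln_single, hM', sub_eq_zero.1 h0]
      rfl
    exact congrArg (fun f => f s) h1

/-- The quotient of projective space by an automorphism of order `p`. -/
theorem rsv_sig (hlin : ∀ i, (σ (X i)).IsHomogeneous 1) (hσp : ∀ s, σ^[p] s = s)
    (hσ1 : ∃ s, σ s ≠ s) (C : Subalgebra k (MvPolynomial (Fin (m + 1)) k))
    (hC : ∀ s, s ∈ C ↔ σ s = s) : ∃ _ : GradedAlgebra (piece C), Rsv C := by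
  classical
  have hpk : (p : k) = 0 := CharP.cast_eq_zero k p
  have hp0 := hp.out.pos
  obtain ⟨N, hN1, hNp, hN0⟩ := exists_N σ hlin hσp hσ1
  have hCf : C = fixedAlg σ := by
    ext s
    rw [hC, mem_fixedAlg]
  have hft : Algebra.FiniteType k C := by
    rw [hCf]
    exact finiteType_fixedAlg σ p hp0 hσp
  have hCh : ∀ f ∈ C, ∀ d, homogeneousComponent d f ∈ C := by
    intro f hf d
    rw [hC] at hf ⊢
    have h1 := hc_comm σ.toLinearMap
      (fun d s hs => sig_hom σ hlin d s hs) f d
    have h2 : homogeneousComponent d (σ f) = σ (homogeneousComponent d f) := h1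
    rw [← h2, hf]
  refine ⟨grd C hCh, ?_⟩
  let _ := grd C hCh
  have hit : ∀ (n : ℕ) (v : Fin (m + 1) → k),
      σ^[n] (ln k (m + 1) v) = ln k (m + 1) (((1 + N) ^ n) v) := by
    intro n
    induction n with
    | zero => intro v; rfl
    | succ n ih =>
      intro v
      rw [Function.iterate_succ_apply, hN1, ih, pow_succ]
      rfl
  have hH : ∀ b : Fin (m + 1) → k, Hp (gam N p b) ∈ C := by
    intro b
    rw [hC]
    have h1 : Hp (gam N p b) = nrm σ p (ln k (m + 1) b) := by
      unfold Hp H920R2.nrm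
      rw [Finset.prod_range]
      exact Finset.prod_congr rfl fun i _ => (hit i b).symm
    rw [h1]
    exact map_nrm σ p hσp _
  have hinj : ∀ (i : ℕ) (x : MvPolynomial (Fin (m + 1)) k), σ^[i] x = 0 → x = 0 := by
    intro i
    induction i with
    | zero => intro x hx; exact hx
    | succ i ih =>
      intro x hx
      rw [Function.iterate_succ_apply] at hx
      exact (map_eq_zero_iff σ σ.injective).1 (ih _ hx)
  have hhom : ∀ (i d : ℕ) (s : MvPolynomial (Fin (m + 1)) k), s.IsHomogeneous d →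
      (σ^[i] s).IsHomogeneous d := by
    intro i
    induction i with
    | zero => intro d s hs; exact hs
    | succ i ih =>
      intro d s hs
      rw [Function.iterate_succ_apply]
      exact ih d _ (sig_hom σ hlin d s hs)
  obtain ⟨b, hb⟩ : ∃ b : Fin (m + 1) → k, b ≠ 0 := ⟨Pi.single 0 1, by
    intro h
    have := congrFun h 0
    rw [Pi.single_eq_same] at this
    exact one_ne_zero this⟩
  refine rsv_of C hp0.ne' ⟨Hp (gam N p b), hH b⟩ Hp_hom ?_ ?_
  · intro h
    exact Hp_ne (gam_ne hNp b hb) (congrArg Subtype.val h)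
  · refine resolution_main hp.out hpk hNp (gam N p) (fun b hb => gam_ne hNp b hb) ⟨0, hp0⟩
      (fun b => rfl) (fun j b hb i => gam_c j b hb i) C (fixF (tau σ)) ?_ (fun b _ => hH b) ?_ ?_
    · intro s
      rw [mem_fixF, tau_ev, hC]
      exact ⟨fun h => ev_inj h, fun h => by rw [h]⟩
    · intro d t ht ht0
      obtain ⟨q, hq⟩ : ∃ q, p = q + 1 := ⟨p - 1, by omega⟩
      have h1 : (∏ i ∈ Finset.range q, σ^[i + 1] t).IsHomogeneous (∑ i ∈ Finset.range q, d) :=
        IsHomogeneous.prod _ _ _ fun i _ => hhom _ _ _ ht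
      refine ⟨_, ∏ i ∈ Finset.range q, σ^[i + 1] t, h1, ?_, ?_⟩
      · rw [hC, mul_comm, ← nrm_succ', ← hq]
        exact map_nrm σ p hσp _
      · rw [Finset.prod_ne_zero_iff]
        intro i _ h
        exact ht0 (hinj _ _ h)
    · intro b hb
      exact good_sig b hσp hN1 hNp hN0 hb _ fun x => Iff.rfl

end sig

end Pool.Agent.U197.PQ
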