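import Pool.Agent.U197.PQ.D7
import Pool.Agent.H519R3.RS.DStep
import Pool.Agent.H920R2.Fol7

/-!
Quotients of projective space by linear derivations with `D ^ p = 0`.
-/

set_option autoImplicit false
set_option linter.unusedSectionVars false

open AlgebraicGeometry CategoryTheory
open MvPolynomial Pool.Agent.H920R2 Pool.Agent.Y177.Tor Pool.Agent.H519R3.RS Pool.Agent.Y177.Ga
open Pool.Agent.N98.PJ

attribute [local instance] MvPolynomial.gradedAlgebra

namespace Pool.Agent.U197.PQ

section inv

variable {k B : Type} [Field k] [CommRing B] [IsDomain B] [Algebra k B]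

/-- The filtration of the ring of constants. -/
lemma good_inv_der {p : ℕ} (hp : p.Prime) (hpk : (p : k) = 0) (D : Derivation k B B)
    (hD : ∀ b, D^[p] b = 0) {F : ℕ → Ideal B} (hF : IsFilt F) (hG : Good k hF) (hne : F 1 ≠ ⊥)
    (hdiv : ∀ d, ∀ a ∈ F d, D a ∈ F (d + 1))
    (hfix : ∀ P : Ideal B, P.IsPrime → (∀ a, D a ∈ P) → F 1 ≤ P)
    (hlead : ∀ d, 1 ≤ d → ∀ a ∈ F d, ∃ N : ℕ, a ^ N ∈ leadI (fun c => D c) F 1 (N * d))
    (C : Subalgebra k B) (hC : ∀ b, b ∈ C ↔ D b = 0) :
    Good k (isFilt_restr hF C) ∧ restr F C 1 ≠ ⊥ := by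
  refine ⟨good_ker hp hpk D 0 (fun b => by rw [hD, map_zero, zero_mul]) hF hG hdiv hfix hlead
    C.val Subtype.val_injective (fun c => ⟨fun h => ⟨⟨c, (hC c).2 h⟩, rfl⟩, ?_⟩) _
      fun d c' => Iff.rfl, ?_⟩
  · rintro ⟨c', rfl⟩
    exact (hC _).1 c'.2
  · obtain ⟨a, ha, ha0⟩ := Submodule.exists_mem_ne_zero_of_ne_bot hne
    have hpB : ((p : ℕ) : B) = 0 := by rw [← map_natCast (algebraMap k B), hpk, map_zero]
    have hmem : a ^ p ∈ C := by
      rw [hC, Derivation.leibniz_pow, nsmul_eq_mul, hpB, zero_mul]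
    intro hbot
    have h6 : (⟨a ^ p, hmem⟩ : C) ∈ restr F C 1 := by
      change a ^ p ∈ F 1
      exact Ideal.pow_mem_of_mem _ ha p hp.pos
    rw [hbot, Ideal.mem_bot] at h6
    exact pow_ne_zero p ha0 (congrArg Subtype.val h6)

end inv

section res

variable {k K : Type} [Field k] [Field K] [Algebra k K]

/-- The restriction of a derivation to a stable subalgebra. -/
def rder (E : Derivation k K K) (B : Subalgebra k K) (h : ∀ z ∈ B, E z ∈ B) : Derivation k B B :=
  Derivation.mk'
    { toFun := fun z => ⟨E z, h z z.2⟩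
      map_add' := fun u v => Subtype.ext (map_add E (u : K) (v : K))
      map_smul' := fun c v => Subtype.ext (E.map_smul c (v : K)) }
    (fun u v => Subtype.ext (E.leibniz (u : K) (v : K)))

lemma coe_rder (E : Derivation k K K) (B : Subalgebra k K) (h : ∀ z ∈ B, E z ∈ B) (z : B) :
    ((rder E B h z : B) : K) = E z := rfl

lemma coe_rder_iter (E : Derivation k K K) (B : Subalgebra k K) (h : ∀ z ∈ B, E z ∈ B) (n : ℕ)
    (z : B) : (((rder E B h)^[n] z : B) : K) = E^[n] z := by
  induction n generalizing z with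
  | zero => rfl
  | succ n ih => rw [Function.iterate_succ_apply, ih, coe_rder, ← Function.iterate_succ_apply]

/-- The field of constants of a derivation. -/
def conF (E : Derivation k K K) : IntermediateField k K where
  carrier := {x | E x = 0}
  mul_mem' := by
    intro a b ha hb
    change E (a * b) = 0
    rw [Derivation.leibniz, show E a = 0 from ha, show E b = 0 from hb, smul_zero, smul_zero,
      add_zero]
  add_mem' := by
    intro a b ha hb
    change E (a + b) = 0
    rw [map_add, show E a = 0 from ha, show E b = 0 from hb, add_zero]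
  algebraMap_mem' r := Derivation.map_algebraMap E r
  inv_mem' a ha := by
    change E a⁻¹ = 0
    rw [Derivation.leibniz_inv, show E a = 0 from ha, smul_zero]

lemma mem_conF (E : Derivation k K K) (x : K) : x ∈ conF E ↔ E x = 0 := Iff.rfl

end res

section der

variable {k : Type} [Field k] {m : ℕ} {p : ℕ} [hp : Fact p.Prime] [CharP k p]
  (D : Derivation k (MvPolynomial (Fin (m + 1)) k) (MvPolynomial (Fin (m + 1)) k))

lemma der_hom (hlin : ∀ i, (D (X i)).IsHomogeneous 1) (d : ℕ) (s : MvPolynomial (Fin (m + 1)) k)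
    (hs : s.IsHomogeneous d) : (D s).IsHomogeneous d := by
  classical
  have hsum : ∀ (t : Finset (Fin (m + 1))) (f : MvPolynomial (Fin (m + 1)) k),
      (∑ i ∈ t, D (X i) • pderiv i :
      Derivation k (MvPolynomial (Fin (m + 1)) k) (MvPolynomial (Fin (m + 1)) k)) f =
      ∑ i ∈ t, (D (X i) • pderiv i : Derivation k (MvPolynomial (Fin (m + 1)) k)
        (MvPolynomial (Fin (m + 1)) k)) f := by
    intro t f
    induction t using Finset.induction_on with
    | empty => rw [Finset.sum_empty, Finset.sum_empty, Derivation.zero_apply]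
    | insert i t hi ih =>
      rw [Finset.sum_insert hi, Finset.sum_insert hi, Derivation.add_apply, ih]
  have h1 : D = ∑ i, D (X i) • pderiv i := by
    apply MvPolynomial.derivation_ext
    intro j
    rw [hsum, Finset.sum_eq_single j]
    · rw [Derivation.coe_smul, Pi.smul_apply, pderiv_X_self, smul_eq_mul, mul_one]
    · intro i _ hij
      rw [Derivation.coe_smul, Pi.smul_apply, pderiv_X_of_ne (Ne.symm hij), smul_zero]
    · intro h
      exact absurd (Finset.mem_univ j) h
  have h2 : D s = ∑ i, D (X i) * pderiv i s := by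
    conv_lhs => rw [h1]
    rw [hsum]
    rfl
  rw [h2]
  refine IsHomogeneous.sum _ _ _ fun i _ => ?_
  rcases Nat.eq_zero_or_pos d with hd | hd
  · subst hd
    rw [← totalDegree_zero_iff_isHomogeneous, totalDegree_eq_zero_iff_eq_C] at hs
    rw [hs, pderiv_C, mul_zero]
    exact isHomogeneous_zero _ _ _
  · have h3 := (hlin i).mul (hs.pderiv (i := i))
    rwa [show 1 + (d - 1) = d by omega] at h3

variable {D}

section chart

variable {N : Module.End k (Fin (m + 1) → k)} {E : Derivation k (KF k m) (KF k m)}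
  (hE : ∀ s, E (ev k m s) = ev k m (D s)) (hD : ∀ v, D (ln k (m + 1) v) = ln k (m + 1) (N v))
  {b : Fin (m + 1) → k}

include hE hD in
lemma E_ee (v : Fin (m + 1) → k) : E (ee k m v) = ee k m (N v) := by
  rw [ee_apply, hE, hD]
  rfl

include hE hD in
lemma E_div (hb : b ≠ 0) (v : Fin (m + 1) → k) : E (ee k m v / ee k m b) =
    ee k m (N v) / ee k m b - (ee k m v / ee k m b) * (ee k m (N b) / ee k m b) := by
  have hb0 := ee_ne (k := k) (m := m) hb
  rw [div_eq_mul_inv, Derivation.leibniz, Derivation.leibniz_inv, E_ee hE hD, E_ee hE hD,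
    smul_eq_mul, smul_eq_mul, smul_eq_mul]
  field_simp
  ring

include hE hD in
lemma E_mem (hb : b ≠ 0) (z : KF k m) (hz : z ∈ Bc b (fun _ : Fin p => b)) :
    E z ∈ Bc b (fun _ : Fin p => b) := by
  have hb0 := ee_ne (k := k) (m := m) hb
  rw [Bc] at hz
  induction hz using Algebra.adjoin_induction with
  | mem z hz =>
    rcases hz with ⟨v, rfl⟩ | ⟨i, rfl⟩
    · rw [E_div hE hD hb]
      exact Subalgebra.sub_mem _ (x_mem _) (Subalgebra.mul_mem _ (x_mem _) (x_mem _))
    · rw [div_self hb0, Derivation.map_one_eq_zero]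
      exact Subalgebra.zero_mem _
  | algebraMap r =>
    rw [Derivation.map_algebraMap]
    exact Subalgebra.zero_mem _
  | add u v hu hv h1 h2 =>
    rw [map_add]
    exact Subalgebra.add_mem _ h1 h2
  | mul u v hu hv h1 h2 =>
    rw [Derivation.leibniz, smul_eq_mul, smul_eq_mul]
    exact Subalgebra.add_mem _ (Subalgebra.mul_mem _ hu h2) (Subalgebra.mul_mem _ hv h1)

/-- Powers of a derivation with `p`-th power zero. -/
lemma E_iter (hE : ∀ s, E (ev k m s) = ev k m (D s)) (hDp : ∀ s, D^[p] s = 0) (x : KF k m) :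
    E^[p] x = 0 := by
  have h1 : ∀ (n : ℕ) (s : MvPolynomial (Fin (m + 1)) k),
      E^[n] (ev k m s) = ev k m (D^[n] s) := by
    intro n
    induction n with
    | zero => intro s; rfl
    | succ n ih =>
      intro s
      rw [Function.iterate_succ_apply, hE, ih, Function.iterate_succ_apply]
  have h2 : ∀ (n : ℕ) (y c : KF k m), E c = 0 → E^[n] (y * c) = E^[n] y * c := by
    intro n
    induction n with
    | zero => intro y c _; rfl
    | succ n ih =>
      intro y c hc
      rw [Function.iterate_succ_apply, Derivation.leibniz, hc, smul_zero, zero_add, smul_eq_mul,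
        mul_comm c, ih _ _ hc, Function.iterate_succ_apply]
  have hpK : ((p : ℕ) : KF k m) = 0 := by
    rw [← map_natCast (algebraMap k (KF k m)), CharP.cast_eq_zero k p, map_zero]
  obtain ⟨s, t, ht, rfl⟩ := IsFractionRing.div_surjective (MvPolynomial (Fin (m + 1)) k) x
  change E^[p] (ev k m s / ev k m t) = 0
  have ht0 : ev k m t ≠ 0 := ev_ne (nonZeroDivisors.ne_zero ht)
  obtain ⟨q, hq⟩ : ∃ q, p = q + 1 := ⟨p - 1, by have := hp.out.pos; omega⟩
  have h3 : ev k m s / ev k m t = ev k m (s * t ^ q) * (ev k m t ^ p)⁻¹ := by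
    rw [map_mul, map_pow, hq, pow_succ]
    field_simp
  have h4 : E (ev k m t ^ p) = 0 := by
    rw [Derivation.leibniz_pow, nsmul_eq_mul, hpK, zero_mul]
  have h5 : E ((ev k m t ^ p)⁻¹) = 0 := by
    rw [Derivation.leibniz_inv, h4, smul_zero]
  rw [h3, h2 _ _ _ h5, h1, hDp, map_zero, zero_mul]

/-- The charts of the quotient. -/
lemma good_der (hE : ∀ s, E (ev k m s) = ev k m (D s))
    (hD : ∀ v, D (ln k (m + 1) v) = ln k (m + 1) (N v)) (hEp : ∀ x, E^[p] x = 0)
    (hN : N ^ p = 0) (hN0 : N ≠ 0) (hb : b ≠ 0)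
    (C : Subalgebra k (Bc b (fun _ : Fin p => b)))
    (hC : ∀ x : Bc b (fun _ : Fin p => b), x ∈ C ↔ E x = 0) :
    Good k (isFilt_restr (isFilt_Fx (N := N) (xb b (fun _ : Fin p => b))) C) ∧
      restr (Fx (xb b (fun _ : Fin p => b)) N) C 1 ≠ ⊥ := by
  have hpk : (p : k) = 0 := CharP.cast_eq_zero k p
  have hb0 := ee_ne (k := k) (m := m) hb
  let B := Bc b (fun _ : Fin p => b)
  let x := xb b (fun _ : Fin p => b)
  let s : Derivation k B B := rder E B (fun z hz => E_mem hE hD hb z hz)
  have hsp : ∀ z : B, s^[p] z = 0 := by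
    intro z
    apply Subtype.ext
    rw [coe_rder_iter, hEp]
    rfl
  have _ : Algebra.Smooth k B := smooth_Bc hb (fun _ => hb)
  have _ : CharP B p := charP_of_injective_algebraMap (algebraMap k B).injective p
  have hG : Good k (isFilt_Fx (N := N) x) :=
    good_of_centre (isFilt_Fx (N := N) x) (centre_Bc hN hb (fun _ => hb))
  have hst : ∀ v, s (x v) = x (N v) - x v * x (N b) := by
    intro v
    apply Subtype.ext
    exact E_div hE hD hb v
  have ht : ∀ v, x (N v) = 1 * s (x v) + x v * x (N b) := by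
    intro v
    rw [hst]
    ring
  have hxb : x b = 1 := xb_b hb
  refine good_inv_der hp.out hpk s hsp (isFilt_Fx (N := N) x) hG ?_ ?_ ?_ ?_ C ?_
  · intro hbot
    apply hN0
    apply LinearMap.ext
    intro v
    by_contra hv
    have h1 : x (N v) ∈ Fx x N 1 := by
      have := x_mem_Fx (N := N) x 1 v
      rwa [pow_one] at this
    rw [hbot, Ideal.mem_bot] at h1
    have h2 : ee k m (N v) / ee k m b = 0 := congrArg Subtype.val h1
    rcases div_eq_zero_iff.1 h2 with h3 | h3
    · exact ee_ne (k := k) (m := m) hv h3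
    · exact hb0 h3
  · intro d a ha
    exact raise_der x b (Bc_gen hb (fun _ => hb)) s hst d a ha
  · intro P hP h
    exact fix_x x b (fun c => s c) _ ht hxb hN P hP h
  · intro d hd a ha
    exact lead_x x b (fun c => s c) _ ht hxb hN d hd a ha
  · intro z
    rw [hC]
    exact ⟨fun h => Subtype.ext h, fun h => congrArg Subtype.val h⟩

end chart

variable (D) in
/-- The quotient of projective space by the group scheme of order `p` given by a derivation. -/
theorem rsv_der (hlin : ∀ i, (D (X i)).IsHomogeneous 1) (hDp : ∀ s, D^[p] s = 0)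
    (hD1 : ∃ s, D s ≠ 0) (C : Subalgebra k (MvPolynomial (Fin (m + 1)) k))
    (hC : ∀ s, s ∈ C ↔ D s = 0) : ∃ _ : GradedAlgebra (piece C), Rsv C := by
  classical
  have hpk : (p : k) = 0 := CharP.cast_eq_zero k p
  have hp0 := hp.out.pos
  have hpS : ((p : ℕ) : MvPolynomial (Fin (m + 1)) k) = 0 := by
    rw [← map_natCast (algebraMap k (MvPolynomial (Fin (m + 1)) k)), hpk, map_zero]
  have hpow : ∀ s, s ^ p ∈ C := by
    intro s
    rw [hC, Derivation.leibniz_pow, nsmul_eq_mul, hpS, zero_mul]
  obtain ⟨N, hN1⟩ := exists_end (D : MvPolynomial (Fin (m + 1)) k →ₗ[k] _) hlin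
  have hN : ∀ v, D (ln k (m + 1) v) = ln k (m + 1) (N v) := hN1
  have hit : ∀ (n : ℕ) (v : Fin (m + 1) → k),
      D^[n] (ln k (m + 1) v) = ln k (m + 1) ((N ^ n) v) := by
    intro n
    induction n with
    | zero => intro v; rfl
    | succ n ih =>
      intro v
      rw [Function.iterate_succ_apply, hN, ih, pow_succ]
      rfl
  have hNp : N ^ p = 0 := by
    apply LinearMap.ext
    intro v
    apply ln_inj
    rw [← hit, hDp]
    exact (map_zero _).symm
  have hN0 : N ≠ 0 := by
    intro h0
    obtain ⟨s, hs⟩ := hD1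
    apply hs
    have h1 : D = 0 := by
      apply MvPolynomial.derivation_ext
      intro i
      rw [← ln_single, hN, h0]
      exact map_zero _
    rw [h1]
    rfl
  have hCf : C = kerAlg D := by
    ext s
    rw [hC, mem_kerAlg]
  have hft : Algebra.FiniteType k C := by
    rw [hCf]
    exact finiteType_kerAlg hp.out hpk D
  have hCh : ∀ f ∈ C, ∀ d, homogeneousComponent d f ∈ C := by
    intro f hf d
    rw [hC] at hf ⊢
    have h1 := hc_comm (D : MvPolynomial (Fin (m + 1)) k →ₗ[k] _)
      (fun d s hs => der_hom D hlin d s hs) f d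
    have h2 : homogeneousComponent d (D f) = D (homogeneousComponent d f) := h1
    rw [← h2, hf, map_zero]
  refine ⟨grd C hCh, ?_⟩
  let _ := grd C hCh
  obtain ⟨E, hE'⟩ := exists_der_frac D
  have hE : ∀ s, E (ev k m s) = ev k m (D s) := hE'
  have hH : ∀ b : Fin (m + 1) → k, Hp (fun _ : Fin p => b) ∈ C := by
    intro b
    have h1 : Hp (fun _ : Fin p => b) = ln k (m + 1) b ^ p := by
      unfold Hp
      rw [Finset.prod_const, Finset.card_univ, Fintype.card_fin]
    rw [h1]
    exact hpow _
  obtain ⟨b, hb⟩ : ∃ b : Fin (m + 1) → k, b ≠ 0 := ⟨Pi.single 0 1, by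
    intro h
    have := congrFun h 0
    rw [Pi.single_eq_same] at this
    exact one_ne_zero this⟩
  refine rsv_of C hp0.ne' ⟨Hp (fun _ : Fin p => b), hH b⟩ Hp_hom ?_ ?_
  · intro h
    exact Hp_ne (fun _ => hb) (congrArg Subtype.val h)
  · refine resolution_main hp.out hpk hNp (fun b _ => b) (fun b hb _ => hb) ⟨0, hp0⟩
      (fun b => rfl) (fun j b hb i => ⟨0, map_zero _, (add_zero b).symm⟩) C (conF E) ?_
      (fun b _ => hH b) ?_ ?_
    · intro s
      rw [mem_conF, hE, hC]
      exact ⟨fun h => ev_inj (h.trans (map_zero _).symm), fun h => by rw [h, map_zero]⟩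
    · intro d t ht ht0
      obtain ⟨q, hq⟩ : ∃ q, p = q + 1 := ⟨p - 1, by omega⟩
      refine ⟨_, t ^ q, ht.pow q, ?_, pow_ne_zero _ ht0⟩
      rw [← pow_succ', ← hq]
      exact hpow t
    · intro b hb
      exact good_der hE hN (E_iter hE hDp) hNp hN0 hb _ fun x => Iff.rfl

end der

end Pool.Agent.U197.PQ
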